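import Pool.Agent.Run7.h2.OB.PUDefs

set_option autoImplicit false

/-!
# Unitary places and exterior powers: the definitions

See `Pool/Agent/Results/MP_cbf1af_ag/OddBallsAndUnitaryPlaces.lean`.
-/

open Module Matrix Pool.Agent.Y102 Pool.Agent.W516.DR Pool.Agent.H204R3.GP

noncomputable section

namespace Run7.h2.EXT

open Run7.h2.OB.PU

variable {g : ℕ} (A : AbVar g)

/-- The multiplicity of the eigenvalue `i a` of `z` on the tangent space. -/
def multiplicity (z : Module.End ℚ A.H1) (a : ℝ) : ℕ := Set.finrank ℂ {x | Eigen A z a x}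

/-- `i a` is an eigenvalue of `z` on the tangent space. -/
def Occurs (z : Module.End ℚ A.H1) (a : ℝ) : Prop := ∃ x, x ≠ 0 ∧ Eigen A z a x

/-- `a` is different from zero, and `i a` and `- i a` are eigenvalues of `z` on the tangent space. -/
def IndefiniteAt (z : Module.End ℚ A.H1) (a : ℝ) : Prop := a ≠ 0 ∧ Occurs A z a ∧ Occurs A z (-a)

/-- **The signatures are different.** If `(r, s)` and `(r', s')` are the multiplicities of `i a`, `- i a` (for
`z`) and of `i b`, `- i b` (for `z'`) on the tangent space, then `r : s ≠ r' : s'` and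
`r : s ≠ s' : r'`. -/
def DifferentSignatures (z z' : Module.End ℚ A.H1) (a b : ℝ) : Prop :=
  multiplicity A z a * multiplicity A z' (-b) ≠ multiplicity A z (-a) * multiplicity A z' b ∧
    multiplicity A z a * multiplicity A z' b ≠ multiplicity A z (-a) * multiplicity A z' (-b)

/-- **A simple representation in the homology.** The injective real linear map `Φ` identifies the complex
vector space `V` with a real subspace of `H_1(A, ℝ) = ℂ ^ g` which is stable under the Lie algebra `𝔤`, and
`V` is simple as a complex representation of `𝔤`: it has no stable complex subspaces besides `0` and `V`. -/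
structure IsSimpleRep {V : Type} [AddCommGroup V] [Module ℂ V] (Φ : V → Fin g → ℂ) : Prop where
  add : ∀ x y, Φ (x + y) = Φ x + Φ y
  smul : ∀ (c : ℝ) x, Φ ((c : ℂ) • x) = (c : ℂ) • Φ x
  inj : ∀ x y, Φ x = Φ y → x = y
  stable : ∀ X, InLie A X → ∀ x, ∃ y, A.ext X (Φ x) = Φ y
  simple : ∀ U : Submodule ℂ V,
    (∀ X, InLie A X → ∀ x ∈ U, ∀ y, A.ext X (Φ x) = Φ y → y ∈ U) → U = ⊥ ∨ U = ⊤

/-- The endomorphism `X` acts on the representation `ℂ ^ N` by the matrix `m`. -/
def ActsBy {N : ℕ} (φ : (Fin N → ℂ) → Fin g → ℂ) (X : Module.End ℚ A.H1)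
    (m : Matrix (Fin N) (Fin N) ℂ) : Prop := ∀ x, A.ext X (φ x) = φ (m *ᵥ x)

/-- The space of the alternating forms of degree `k` on `ℂ ^ N`: the exterior power of degree `k` of the
dual space. (If `N = 2 k` it is isomorphic to the exterior power of degree `k` of `ℂ ^ N`, up to a twist
with the determinant.) -/
abbrev Alt (k N : ℕ) : Type := (Fin N → ℂ) [⋀^Fin k]→ₗ[ℂ] ℂ

/-- The contragredient action of a matrix `m` on alternating forms, twisted by a character with the value
`c`: the form `ω'` is `c ω` minus the sum of the forms `ω(v₁, ..., m v_j, ..., v_k)`. -/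
def ActsTo {k N : ℕ} (m : Matrix (Fin N) (Fin N) ℂ) (c : ℂ) (ω ω' : Alt k N) : Prop :=
  ∀ v, ω' v = c * ω v - ∑ j, ω (Function.update v j (m *ᵥ v j))

/-- **The exterior power of a representation.** The elements `X` of `𝔤` act on `Ψ` like on the alternating
forms of degree `k` on the representation `φ`, up to a twist by a character of `𝔤` (with the value `c` at
the element `X`). -/
def IsExteriorPower {k N : ℕ} (φ : (Fin N → ℂ) → Fin g → ℂ) (Ψ : Alt k N → Fin g → ℂ) : Prop :=
  ∀ X, InLie A X → ∀ m, ActsBy A φ X m → ∃ c : ℂ, ∀ ω ω', ActsTo m c ω ω' → A.ext X (Ψ ω) = Ψ ω'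

/-- **The middle exterior power occurs**: for some simple representation `ℂ ^ N` in `H_1(A, ℝ)`, on which
`z` acts as `i a`, of the dimension `N = 2 k`, `k ≥ 2`, the exterior power of degree `k`, twisted by a
character, occurs in `H_1(A, ℝ)` as a simple representation. -/
def HasMiddleExteriorPower (z : Module.End ℚ A.H1) (a : ℝ) : Prop :=
  ∃ (k N : ℕ) (φ : (Fin N → ℂ) → Fin g → ℂ) (Ψ : Alt k N → Fin g → ℂ), 2 ≤ k ∧ N = 2 * k ∧
    IsSimpleRep A φ ∧ (∀ x, A.ext z (φ x) = φ (((a : ℂ) * Complex.I) • x)) ∧
      IsSimpleRep A Ψ ∧ IsExteriorPower A φ Ψ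

/-- **The signature is `(1, n)`**: the eigenspace of `i a` on the tangent space is a simple module over the
algebra of the endomorphisms. -/
def IsBall (z : Module.End ℚ A.H1) (a : ℝ) : Prop :=
  ∀ x y, x ≠ 0 → Eigen A z a x → Eigen A z a y →
    y ∈ Submodule.span ℂ {w | ∃ P, IsEndo A P ∧ w = A.ext P x}

/-- **A good ball place**: the signature is indefinite and of the form `(1, n)`, and `i a` and `- i a` are
separated, or the middle exterior power occurs in the homology. -/
def GoodBall (z : Module.End ℚ A.H1) (a : ℝ) : Prop :=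
  IndefiniteAt A z a ∧ IsBall A z a ∧ (Separates A z a (-a) ∨ HasMiddleExteriorPower A z a)

/-- The type of the place: a good ball place; or `ℚ[z]` is a field and some place of `z` is a good ball
place; or the commutant of the endomorphisms is a division algebra of a prime degree. -/
def GoodType (z : Module.End ℚ A.H1) (a : ℝ) : Prop :=
  GoodBall A z a ∨ (IsFieldPart A z ∧ ∃ b, GoodBall A z b) ∨
    ∃ p : ℕ, p.Prime ∧ IsDivision A z ∧ HasDegree A z p

/-- **A unitary place**: `z` is central and skew-symmetric and generates the centre on its image, the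
signature at `a` is indefinite, with one of the types above. -/
structure Place (z : Module.End ℚ A.H1) (a : ℝ) : Prop where
  part : CentralPart A z
  indefinite : IndefiniteAt A z a
  type : GoodType A z a

/-- The places are separated from each other. -/
def Separated (z z' : Module.End ℚ A.H1) (a b : ℝ) : Prop :=
  SeparatesTwo A z z' a b ∧ SeparatesTwo A z z' (-a) b

/-- **Several unitary places**, of one or of several central endomorphisms. Different places have
different signatures, or they are separated. -/
structure Places {k : ℕ} (z : Fin k → Module.End ℚ A.H1) (a : Fin k → ℝ) : Prop where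
  place : ∀ i, Place A (z i) (a i)
  apart : ∀ i j, i ≠ j →
    DifferentSignatures A (z i) (z j) (a i) (a j) ∨ Separated A (z i) (z j) (a i) (a j)

/-- The elements `X` and `Y` commute. -/
def Comm (X Y : Module.End ℚ A.H1) : Prop := X * Y = Y * X

/-- The commutator of `X` and `Y`. -/
def bracket (X Y : Module.End ℚ A.H1) : Module.End ℚ A.H1 := X * Y - Y * X

/-- `X` is an element of the centre of `𝔤`. -/
def IsInCentre (X : Module.End ℚ A.H1) : Prop := InLie A X ∧ ∀ Y, InLie A Y → Comm A Y X

/-- The endomorphisms which commute with `X` and with the derived algebra of `𝔤` commute with the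
centre of `𝔤`. -/
def GeneratesCentre (X : Module.End ℚ A.H1) : Prop :=
  ∀ T, (∀ Y, InLie A Y → ∀ Z, InLie A Z → Comm A T (bracket A Y Z)) →
    Comm A T X → ∀ Z, IsInCentre A Z → Comm A T Z

/-- The centre of `𝔤` is rigid: the relations between the eigenvalues of a generating element of the
centre hold for all elements of the centre. -/
def HasRigidCentre : Prop :=
  ∀ X, IsInCentre A X → GeneratesCentre A X → ∀ Y, IsInCentre A Y → RelationsOf A X Y

/-- `x` is an element of the real span of the set of the `y` with `S y`. -/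
def InSpan {V : Type} [AddCommMonoid V] [Module ℝ V] (S : V → Prop) (x : V) : Prop :=
  x ∈ Submodule.span ℝ {y | S y}

variable {A}

/-- `p` is the action of an element of the derived algebra `[𝔤, 𝔤]`, on `H_1(A, ℝ) = ℂ ^ g` and on the
motive `M` with the basis `B`. -/
def IsPair {s n : ℕ} {r : Fin s → ℕ} (B : Fin n → Tensors A r)
    (p : Module.End ℝ (Fin g → ℂ) × Matrix (Fin n) (Fin n) ℝ) : Prop :=
  ∃ X ∈ derivedLie A, ∃ M : Matrix (Fin n) (Fin n) ℚ, IsLieMatrix B X M ∧
    p = (A.ext X, M.map fun q => (q : ℝ))

/-- The part of the Hodge group which acts trivially on the eigenspaces of the `z j` for `± i a j` acts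
trivially on the Mumford-Tate domain of `M`: if an element of `[𝔤, 𝔤] ⊗ ℝ`, which acts on
`H_1(A, ℝ) = ℂ ^ g` by `p.1` and on `M` by `p.2`, acts trivially on these eigenspaces, then `p.2`
commutes with the complex structure `N` of `M`. -/
def IsDomainOf {s n k : ℕ} {r : Fin s → ℕ} (z : Fin k → Module.End ℚ A.H1) (a : Fin k → ℝ)
    (B : Fin n → Tensors A r) (N : Matrix (Fin n) (Fin n) ℝ) : Prop :=
  ∀ p, InSpan (IsPair B) p →
    (∀ j x, Eigen A (z j) (a j) x ∨ Eigen A (z j) (-a j) x → p.1 x = 0) → p.2 * N = N * p.2

end Run7.h2.EXT
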