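import Mathlib

set_option autoImplicit false
set_option linter.unusedSectionVars false

/-!
# The star operator on the middle exterior power

Let `m` be skew-symmetric for a non-degenerate symmetric form on a complex space of dimension `2 k`.
Then `m` commutes, as a derivation on the exterior power of degree `k`, with the star operator, which is
not a multiple of the identity.
-/

open Module Matrix

noncomputable section

namespace Run7.h2.EXT

variable {k N : ℕ} (e : Fin k ⊕ Fin k ≃ Fin N)

/-- the space -/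
abbrev W (N : ℕ) : Type := Fin N → ℂ

/-- the exterior power -/
abbrev Lk (k N : ℕ) : Type := ⋀[ℂ]^k (W N)

/-- the volume form -/
def dt : (W N) [⋀^(Fin k ⊕ Fin k)]→ₗ[ℂ] ℂ :=
  (Matrix.detRowAlternating (n := Fin k ⊕ Fin k) (R := ℂ)).compLinearMap (LinearMap.funLeft ℂ ℂ e)

theorem dt_apply (x : Fin k ⊕ Fin k → W N) :
    dt e x = (Matrix.of fun i j => x i (e j)).det := rfl

theorem der_det {n : Type} [Fintype n] [DecidableEq n] (X M : Matrix n n ℂ) :
    ∑ i, (X.updateRow i ((X * M) i)).det = M.trace * X.det := by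
  have h1 : ∀ i, (X.updateRow i ((X * M) i)).det = ∑ j, X.adjugate j i * (X * M) i j := by
    intro i
    rw [← Matrix.cramer_transpose_apply, Matrix.cramer_eq_adjugate_mulVec,
      ← Matrix.adjugate_transpose]
    rfl
  rw [Finset.sum_congr rfl fun i _ => h1 i, Finset.sum_comm]
  have h2 : ∀ j, ∑ i, X.adjugate j i * (X * M) i j = (X.adjugate * (X * M)) j j := fun j =>
    (Matrix.mul_apply).symm
  rw [Finset.sum_congr rfl fun j _ => h2 j, ← Matrix.mul_assoc, Matrix.adjugate_mul]
  simp only [Matrix.smul_mul, Matrix.one_mul, Matrix.smul_apply, smul_eq_mul]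
  rw [← Finset.mul_sum, mul_comm]
  rfl

theorem dt_der (m : Matrix (Fin N) (Fin N) ℂ) (x : Fin k ⊕ Fin k → W N) :
    ∑ i, dt e (Function.update x i (m *ᵥ x i)) = m.trace * dt e x := by
  have h1 := der_det (Matrix.of fun i j => x i (e j)) ((m.submatrix e e)ᵀ)
  have h2 : ((m.submatrix e e)ᵀ).trace = m.trace := by
    rw [Matrix.trace_transpose]
    unfold Matrix.trace
    exact Equiv.sum_comp e fun i => m i i
  rw [h2] at h1
  rw [dt_apply, ← h1]
  refine Finset.sum_congr rfl fun i _ => ?_
  rw [dt_apply]
  congr 1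
  ext a b
  rw [Matrix.of_apply]
  by_cases h : a = i
  · subst h
    rw [Function.update_self, Matrix.updateRow_self, Matrix.mul_apply]
    simp only [Matrix.mulVec, dotProduct, Matrix.of_apply, Matrix.transpose_apply,
      Matrix.submatrix_apply]
    rw [← Equiv.sum_comp e]
    exact Finset.sum_congr rfl fun c _ => mul_comm _ _
  · rw [Function.update_of_ne h, Matrix.updateRow_ne h, Matrix.of_apply]

/-- the volume form as a function of the first half -/
def half (w : Fin k → W N) : (W N) [⋀^Fin k]→ₗ[ℂ] ℂ where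
  toFun v := dt e (Sum.elim v w)
  map_update_add' := by
    intro _ v i x y
    rw [← Sum.update_elim_inl, ← Sum.update_elim_inl, ← Sum.update_elim_inl]
    exact (dt e).map_update_add _ _ _ _
  map_update_smul' := by
    intro _ v i c x
    rw [← Sum.update_elim_inl, ← Sum.update_elim_inl]
    exact (dt e).map_update_smul _ _ _ _
  map_eq_zero_of_eq' := by
    intro v i j hij hne
    exact (dt e).map_eq_zero_of_eq (i := Sum.inl i) (j := Sum.inl j) _ hij
      fun h => hne (Sum.inl_injective h)

theorem half_apply (v w : Fin k → W N) : half e w v = dt e (Sum.elim v w) := rfl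

variable (U : Matrix (Fin N) (Fin N) ℂ)

/-- the columns of `U` -/
def cl (j : Fin N) : W N := fun i => U i j

/-- the star operator, as an alternating map -/
def Th : (W N) [⋀^Fin k]→ₗ[ℂ] (Lk k N) where
  toFun v := ∑ t : Fin k → Fin N, half e (cl U ∘ t) v • exteriorPower.ιMulti ℂ k (cl U ∘ t)
  map_update_add' := by
    intro _ v i x y
    rw [← Finset.sum_add_distrib]
    refine Finset.sum_congr rfl fun t _ => ?_
    rw [(half e (cl U ∘ t)).map_update_add, add_smul]
  map_update_smul' := by
    intro _ v i c x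
    rw [Finset.smul_sum]
    refine Finset.sum_congr rfl fun t _ => ?_
    rw [(half e (cl U ∘ t)).map_update_smul, smul_assoc]
  map_eq_zero_of_eq' := by
    intro v i j hij hne
    refine Finset.sum_eq_zero fun t _ => ?_
    rw [(half e (cl U ∘ t)).map_eq_zero_of_eq v hij hne, zero_smul]

theorem Th_apply (v : Fin k → W N) :
    Th e U v = ∑ t : Fin k → Fin N, half e (cl U ∘ t) v •
      exteriorPower.ιMulti ℂ k (cl U ∘ t) := rfl

/-- the star operator -/
def star' : Lk k N →ₗ[ℂ] Lk k N := exteriorPower.alternatingMapLinearEquiv (Th e U)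

theorem star_ι (v : Fin k → W N) : star' e U (exteriorPower.ιMulti ℂ k v) = Th e U v :=
  exteriorPower.alternatingMapLinearEquiv_apply_ιMulti _ _

/-- the derivation -/
def dr (m : Matrix (Fin N) (Fin N) ℂ) (v : Fin k → W N) : Lk k N :=
  ∑ j, exteriorPower.ιMulti ℂ k (Function.update v j (m *ᵥ v j))

variable {U} {m M : Matrix (Fin N) (Fin N) ℂ}

theorem mul_cl (hU : m * U = U * M) (s : Fin N) : m *ᵥ cl U s = ∑ r, M r s • cl U r := by
  funext i
  have h1 := congrFun (congrFun hU i) s
  rw [Matrix.mul_apply, Matrix.mul_apply] at h1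
  simp only [Matrix.mulVec, dotProduct, cl, Finset.sum_apply, Pi.smul_apply, smul_eq_mul]
  rw [h1]
  exact Finset.sum_congr rfl fun r _ => mul_comm _ _

/-- the substitution -/
def sw (j : Fin k) : (Fin k → Fin N) × Fin N ≃ (Fin k → Fin N) × Fin N where
  toFun p := (Function.update p.1 j p.2, p.1 j)
  invFun p := (Function.update p.1 j p.2, p.1 j)
  left_inv p := by
    ext i
    · by_cases h : i = j
      · subst h
        simp
      · simp [h]
    · simp
  right_inv p := by
    ext i
    · by_cases h : i = j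
      · subst h
        simp
      · simp [h]
    · simp

/-- **The star operator commutes with the derivations given by skew-symmetric matrices.** -/
theorem star_comm (hU : m * U = U * M) (hM : ∀ r s, M r s = -M s r) (hm : m.trace = 0)
    (v : Fin k → W N) :
    ∑ j, Th e U (Function.update v j (m *ᵥ v j)) =
      ∑ t : Fin k → Fin N, half e (cl U ∘ t) v • dr m (cl U ∘ t) := by
  classical
  -- the left hand side
  have h1 : ∀ t : Fin k → Fin N, ∑ j, half e (cl U ∘ t) (Function.update v j (m *ᵥ v j)) =
      -∑ j, ∑ r, M r (t j) * half e (cl U ∘ Function.update t j r) v := by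
    intro t
    have h2 := dt_der e m (Sum.elim v (cl U ∘ t))
    rw [hm, zero_mul, Fintype.sum_sum_type] at h2
    rw [eq_neg_iff_add_eq_zero, ← h2]
    congr 1
    · refine Finset.sum_congr rfl fun j _ => ?_
      rw [half_apply, Sum.update_elim_inl]
      rfl
    · refine Finset.sum_congr rfl fun j _ => ?_
      rw [Sum.update_elim_inr]
      have h3 : m *ᵥ (Sum.elim v (cl U ∘ t) (Sum.inr j)) = ∑ r, M r (t j) • cl U r := by
        rw [Sum.elim_inr, Function.comp_apply, mul_cl hU]
      rw [h3]
      have h4 : ∀ y, dt e (Sum.elim v (Function.update (cl U ∘ t) j y)) =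
          (dt e).toMultilinearMap.toLinearMap (Sum.elim v (cl U ∘ t)) (Sum.inr j) y := by
        intro y
        rw [← Sum.update_elim_inr]
        rfl
      rw [h4, map_sum]
      refine Finset.sum_congr rfl fun r _ => ?_
      rw [map_smul, ← h4, smul_eq_mul, half_apply, Function.comp_update]
  have h5 : ∑ j, Th e U (Function.update v j (m *ᵥ v j)) =
      ∑ t : Fin k → Fin N, -((∑ j, ∑ r, M r (t j) * half e (cl U ∘ Function.update t j r) v) •
        exteriorPower.ιMulti ℂ k (cl U ∘ t)) := by
    simp only [Th_apply]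
    rw [Finset.sum_comm]
    refine Finset.sum_congr rfl fun t _ => ?_
    rw [← Finset.sum_smul, h1, neg_smul]
  -- the right hand side
  have h6 : ∀ t : Fin k → Fin N, dr m (cl U ∘ t) =
      ∑ j, ∑ r, M r (t j) • exteriorPower.ιMulti ℂ k (cl U ∘ Function.update t j r) := by
    intro t
    unfold dr
    refine Finset.sum_congr rfl fun j _ => ?_
    rw [Function.comp_apply, mul_cl hU]
    have h4 : ∀ y, exteriorPower.ιMulti ℂ k (Function.update (cl U ∘ t) j y) =
        (exteriorPower.ιMulti ℂ k (M := W N)).toMultilinearMap.toLinearMap (cl U ∘ t) j y :=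
      fun y => rfl
    rw [h4, map_sum]
    refine Finset.sum_congr rfl fun r _ => ?_
    rw [map_smul, ← h4, Function.comp_update]
  rw [h5]
  simp only [h6, Finset.smul_sum, Finset.sum_smul, ← Finset.sum_neg_distrib]
  rw [Finset.sum_comm]
  conv_rhs => rw [Finset.sum_comm]
  refine Finset.sum_congr rfl fun j _ => ?_
  rw [← Fintype.sum_prod_type', ← Fintype.sum_prod_type']
  rw [← Equiv.sum_comp (sw j)]
  refine Finset.sum_congr rfl fun p _ => ?_
  simp only [sw, Equiv.coe_fn_mk, Function.update_self, Function.update_idem,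
    Function.update_eq_self]
  rw [hM, neg_mul, neg_smul, neg_neg, mul_comm, mul_smul]

/-- the zero-one matrix of a family of indices -/
def P01 (x : Fin k ⊕ Fin k → Fin N) : Matrix (Fin k ⊕ Fin k) (Fin k ⊕ Fin k) ℤ :=
  Matrix.of fun i s => if x i = e s then 1 else 0

theorem dt_cl (x : Fin k ⊕ Fin k → Fin N) :
    dt e (cl U ∘ x) = ((P01 e x).det : ℂ) * U.det := by
  have h1 : (Matrix.of fun i j => (cl U ∘ x) i (e j)) =
      ((P01 e x).map (Int.cast : ℤ → ℂ)) * (U.submatrix e e)ᵀ := by
    ext i j
    rw [Matrix.mul_apply, Matrix.of_apply, Function.comp_apply]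
    obtain ⟨s, hs⟩ := e.surjective (x i)
    rw [Finset.sum_eq_single s]
    · rw [Matrix.map_apply, P01, Matrix.of_apply, if_pos hs.symm, Int.cast_one, one_mul,
        Matrix.transpose_apply, Matrix.submatrix_apply, hs]
      rfl
    · intro r _ hr
      rw [Matrix.map_apply, P01, Matrix.of_apply, if_neg, Int.cast_zero, zero_mul]
      intro h
      exact hr (e.injective (h.symm.trans hs.symm))
    · intro h
      exact absurd (Finset.mem_univ _) h
  rw [dt_apply, h1, Matrix.det_mul, Matrix.det_transpose, Matrix.det_submatrix_equiv_self]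
  congr 1
  exact ((Int.castRingHom ℂ).map_det (P01 e x)).symm

/-- **The star operator is not a scalar.** -/
theorem star_not (hk : 0 < k) (hU : U.det ≠ 0) (c : ℂ) :
    ¬ ∀ v : Fin k → W N, Th e U v = c • exteriorPower.ιMulti ℂ k v := by
  intro h
  let x0 : Fin k → Fin N := fun i => e (Sum.inl i)
  let L : Lk k N →ₗ[ℂ] ℂ := exteriorPower.alternatingMapLinearEquiv (half e (cl U ∘ x0))
  have hL : ∀ v, L (exteriorPower.ιMulti ℂ k v) = dt e (Sum.elim v (cl U ∘ x0)) := fun v =>
    exteriorPower.alternatingMapLinearEquiv_apply_ιMulti _ _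
  have h1 := congrArg L (h (cl U ∘ x0))
  rw [map_smul, hL, Th_apply, map_sum] at h1
  have h2 : dt e (Sum.elim (cl U ∘ x0) (cl U ∘ x0)) = 0 :=
    (dt e).map_eq_zero_of_eq (i := Sum.inl ⟨0, hk⟩) (j := Sum.inr ⟨0, hk⟩) _ rfl (by simp)
  rw [h2, smul_zero] at h1
  let s : ℤ := ((Equiv.Perm.sign (Equiv.sumComm (Fin k) (Fin k)) : ℤˣ) : ℤ)
  have hs : s ≠ 0 := Units.ne_zero _
  have h3 : ∀ t : Fin k → Fin N, L (half e (cl U ∘ t) (cl U ∘ x0) •
      exteriorPower.ιMulti ℂ k (cl U ∘ t)) =
      ((s * (P01 e (Sum.elim x0 t)).det ^ 2 : ℤ) : ℂ) * U.det ^ 2 := by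
    intro t
    rw [map_smul, hL, half_apply, ← Sum.comp_elim, ← Sum.comp_elim, dt_cl, dt_cl]
    have h4 : (P01 e (Sum.elim t x0)).det = s * (P01 e (Sum.elim x0 t)).det := by
      have h5 : P01 e (Sum.elim t x0) =
          (P01 e (Sum.elim x0 t)).submatrix (Equiv.sumComm (Fin k) (Fin k)) id := by
        ext i j
        rcases i with i | i <;> rfl
      rw [h5, Matrix.det_permute]
      rfl
    rw [h4, smul_eq_mul]
    push_cast
    ring
  rw [Finset.sum_congr rfl fun t _ => h3 t, ← Finset.sum_mul, ← Int.cast_sum, ← Finset.mul_sum] at h1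
  rcases mul_eq_zero.1 h1 with h4 | h4
  · rw [Int.cast_eq_zero] at h4
    rcases mul_eq_zero.1 h4 with h5 | h5
    · exact hs h5
    · rw [Finset.sum_eq_zero_iff_of_nonneg (fun t _ => sq_nonneg _)] at h5
      have h6 := h5 (fun i => e (Sum.inr i)) (Finset.mem_univ _)
      have h7 : P01 e (Sum.elim x0 fun i => e (Sum.inr i)) = 1 := by
        ext i j
        unfold P01
        rw [Matrix.of_apply, Matrix.one_apply]
        rcases i with i | i
        · simp only [Sum.elim_inl, x0, EmbeddingLike.apply_eq_iff_eq]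
        · simp only [Sum.elim_inr, EmbeddingLike.apply_eq_iff_eq]
      rw [h7, Matrix.det_one, one_pow] at h6
      exact one_ne_zero h6
  · exact hU (pow_eq_zero_iff two_ne_zero |>.1 h4)

end Run7.h2.EXT
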