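import Pool.Agent.Run7.h2.OB.Lk
import Pool.Agent.N208.BT.S12

set_option autoImplicit false
set_option linter.unusedSectionVars false

/-!
# Lie algebras of real type of signature `(1, n)` are orthogonal

An irreducible real Lie algebra of skew-hermitian operators of signature `(1, n)`, with `2 ≤ n`, which
commutes with an antilinear bijection is skew-symmetric in a suitable basis.
-/

open Matrix

noncomputable section

namespace Run7.h2.EXT

open Pool.Agent Pool.Agent.N208.BT Run7.h2.OB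

variable {n : ℕ}

/-- the matrix of the form -/
def Dm (n : ℕ) : M n := Matrix.diagonal fun i => ((sg1 n i : ℝ) : ℂ)

theorem sg1_sq (i : Fin (n + 1)) : ((sg1 n i : ℝ) : ℂ) * ((sg1 n i : ℝ) : ℂ) = 1 := by
  unfold sg1
  split_ifs
  · simp
  · simp

theorem Dm_sq : Dm n * Dm n = 1 := by
  unfold Dm
  rw [Matrix.diagonal_mul_diagonal]
  rw [← Matrix.diagonal_one]
  congr 1
  funext i
  exact sg1_sq i

theorem Dm_tr : (Dm n)ᵀ = Dm n := Matrix.diagonal_transpose _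

/-- the complex conjugate -/
abbrev cj (X : M n) : M n := X.map star

theorem cj_mul (X Y : M n) : cj (X * Y) = cj X * cj Y := by
  ext i j
  simp only [cj, Matrix.map_apply, Matrix.mul_apply, star_sum, star_mul']

theorem cj_cj (X : M n) : cj (cj X) = X := by
  ext i j
  simp only [cj, Matrix.map_apply, star_star]

theorem cj_Dm : cj (Dm n) = Dm n := by
  ext i j
  unfold Dm cj
  rw [Matrix.map_apply, Matrix.diagonal_apply]
  split_ifs
  · exact Complex.conj_ofReal _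
  · exact star_zero _

theorem cj_neg (X : M n) : cj (-X) = -cj X := by
  ext i j
  simp only [cj, Matrix.map_apply, Matrix.neg_apply, star_neg]

theorem cj_tr (X : M n) : cj Xᵀ = (cj X)ᵀ := rfl

/-- skew-hermitian operators -/
theorem sk_eq {X : M n} (h : IsSk X) : Xᵀ * Dm n = -(Dm n * cj X) := by
  ext i j
  have h1 := h (Pi.single i 1) (Pi.single j 1)
  rw [← hs_sg1, ← hs_sg1, N768.BG.hs_single_left, N768.BG.hs_single_right] at h1
  have h2 : ∀ a b, (X *ᵥ (Pi.single a 1 : V n)) b = X b a := by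
    intro a b
    rw [Matrix.mulVec_single_one]
    rfl
  rw [h2, h2] at h1
  unfold Dm
  rw [Matrix.mul_diagonal, Matrix.neg_apply, Matrix.diagonal_mul, Matrix.transpose_apply,
    eq_neg_iff_add_eq_zero, mul_comm (X j i)]
  exact h1

/-- Schur's lemma for a real Lie algebra -/
theorem schur' {𝔯 : Submodule ℝ (M n)} (h : RR 𝔯) {T : M n} (hT : ∀ X ∈ 𝔯, T * X = X * T) :
    ∃ c : ℂ, T = c • 1 := schur (S := (𝔯 : Set (M n))) (Nat.succ_pos n) h.irr hT

/-- two operators which intertwine `𝔯` in the same way are proportional -/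
theorem prop' {𝔯 : Submodule ℝ (M n)} (h : RR 𝔯) {f : M n → M n} {P Q : M n}
    (hP : IsUnit P.det) (h1 : ∀ X ∈ 𝔯, f X * P = -(P * X)) (h2 : ∀ X ∈ 𝔯, f X * Q = -(Q * X)) :
    ∃ c : ℂ, Q = c • P := by
  obtain ⟨c, hc⟩ := schur' h (T := P⁻¹ * Q) (by
    intro X hX
    have e1 : P⁻¹ * (f X * P) * P⁻¹ = P⁻¹ * (-(P * X)) * P⁻¹ := by rw [h1 X hX]
    have e2 : P⁻¹ * f X = -(X * P⁻¹) := by
      rw [Matrix.mul_neg, Matrix.neg_mul, ← Matrix.mul_assoc P⁻¹ P X,
        Matrix.nonsing_inv_mul _ hP, Matrix.one_mul, Matrix.mul_assoc, Matrix.mul_assoc,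
        Matrix.mul_nonsing_inv _ hP, Matrix.mul_one] at e1
      exact e1
    have e3 : Q * X = -(f X * Q) := by rw [h2 X hX, neg_neg]
    rw [Matrix.mul_assoc, e3, Matrix.mul_neg, ← Matrix.mul_assoc, e2, Matrix.neg_mul, neg_neg,
      Matrix.mul_assoc])
  refine ⟨c, ?_⟩
  have e1 : P * (P⁻¹ * Q) = P * (c • (1 : M n)) := by rw [hc]
  rw [← Matrix.mul_assoc, Matrix.mul_nonsing_inv _ hP, Matrix.one_mul, Matrix.mul_smul,
    Matrix.mul_one] at e1
  exact e1

/-- the values of the form on the diagonal -/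
def q (x : V n) : ℝ := ∑ i, sg1 n i * Complex.normSq (x i)

theorem hs_q (x : V n) : hs (sg1 n) x x = ((q x : ℝ) : ℂ) := hs_self _ _

theorem q_zero {x : V n} (hx : x 0 = 0) : q x = -∑ i, Complex.normSq (x i) := by
  unfold q
  rw [← Finset.sum_neg_distrib]
  refine Finset.sum_congr rfl fun i _ => ?_
  unfold sg1
  split_ifs with h
  · rw [h, hx, map_zero, mul_zero, neg_zero]
  · ring

theorem q_nonpos {x : V n} (hx : x 0 = 0) : q x ≤ 0 := by
  rw [q_zero hx, neg_nonpos]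
  exact Finset.sum_nonneg fun i _ => Complex.normSq_nonneg _

theorem q_neg {x : V n} (hx : x 0 = 0) (h0 : x ≠ 0) : q x < 0 := by
  rw [q_zero hx, neg_neg_iff_pos]
  obtain ⟨i, hi⟩ := Function.ne_iff.1 h0
  refine Finset.sum_pos' (fun i _ => Complex.normSq_nonneg _) ⟨i, Finset.mem_univ _, ?_⟩
  exact Complex.normSq_pos.2 hi

theorem q_e0 : q (Pi.single 0 1 : V n) = 1 := by
  have h1 := hs_q (Pi.single 0 1 : V n)
  rw [N768.BG.hs_single_left, Pi.single_eq_same, star_one, mul_one] at h1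
  have h2 : sg1 n 0 = 1 := by
    unfold sg1
    rw [if_pos rfl]
  rw [h2] at h1
  exact_mod_cast h1.symm

theorem hs_C {C : M n} {d : ℂ} (hC : Cᵀ * Dm n * cj C = d • Dm n) (x y : V n) :
    hs (sg1 n) (C *ᵥ x) (C *ᵥ y) = d * hs (sg1 n) x y := by
  have hval : ∀ x y : V n, hs (sg1 n) x y = x ⬝ᵥ (Dm n *ᵥ star y) := by
    intro x y
    unfold hs Dm
    simp only [dotProduct, Matrix.mulVec_diagonal, Pi.star_apply]
    exact Finset.sum_congr rfl fun i _ => by ring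
  have hstar : star (C *ᵥ y) = cj C *ᵥ star y := by
    funext i
    simp only [Pi.star_apply, Matrix.mulVec, dotProduct, star_sum, star_mul', cj,
      Matrix.map_apply]
  have h1 : (C *ᵥ x) = x ᵥ* Cᵀ := (Matrix.vecMul_transpose C x).symm
  rw [hval, hval, hstar, h1, Matrix.mulVec_mulVec, ← Matrix.dotProduct_mulVec,
    Matrix.mulVec_mulVec, ← Matrix.mul_assoc, hC, Matrix.smul_mulVec, dotProduct_smul,
    smul_eq_mul]

/-- the antilinear operator multiplies the form by a positive number -/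
theorem pos_of (hn : 2 ≤ n) {C : M n} {d : ℂ} (hC : Cᵀ * Dm n * cj C = d • Dm n) (hd : d ≠ 0) :
    0 < d.re ∧ ∀ x : V n, q (C *ᵥ x) = d.re * q x := by
  have hd' : ((d.re : ℝ) : ℂ) = d := by
    have h1 := hs_C hC (Pi.single 0 1) (Pi.single 0 1)
    rw [hs_q, hs_q, q_e0, Complex.ofReal_one, mul_one] at h1
    rw [← h1, Complex.ofReal_re]
  have hq : ∀ x : V n, q (C *ᵥ x) = d.re * q x := by
    intro x
    have h1 := hs_C hC x x
    rw [hs_q, hs_q, ← hd', ← Complex.ofReal_mul] at h1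
    exact_mod_cast h1
  refine ⟨?_, hq⟩
  have hd0 : d.re ≠ 0 := by
    intro h
    apply hd
    rw [← hd', h, Complex.ofReal_zero]
  by_contra hneg
  have hlt : d.re < 0 := lt_of_le_of_ne (not_lt.1 hneg) hd0
  let i1 : Fin (n + 1) := ⟨1, by omega⟩
  let i2 : Fin (n + 1) := ⟨2, by omega⟩
  have h10 : i1 ≠ 0 := by
    intro h
    have := congrArg Fin.val h
    simp [i1] at this
  have h20 : i2 ≠ 0 := by
    intro h
    have := congrArg Fin.val h
    simp [i2] at this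
  have h12 : i1 ≠ i2 := by
    intro h
    have := congrArg Fin.val h
    simp [i1, i2] at this
  have key : ∀ x : V n, x 0 = 0 → x ≠ 0 → (C *ᵥ x) 0 ≠ 0 := by
    intro x hx0 hx h0
    have h1 := q_nonpos h0
    rw [hq] at h1
    have h2 := mul_pos_of_neg_of_neg hlt (q_neg hx0 hx)
    linarith
  let x : V n := (C 0 i2) • Pi.single i1 1 - (C 0 i1) • Pi.single i2 1
  have hcol : ∀ i, (C *ᵥ (Pi.single i 1 : V n)) 0 = C 0 i := by
    intro i
    rw [Matrix.mulVec_single_one]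
    rfl
  have hx0 : x 0 = 0 := by
    simp only [x, Pi.sub_apply, Pi.smul_apply, Pi.single_eq_of_ne h10.symm,
      Pi.single_eq_of_ne h20.symm, smul_zero, sub_zero]
  have hCx : (C *ᵥ x) 0 = 0 := by
    simp only [x, Matrix.mulVec_sub, Matrix.mulVec_smul, Pi.sub_apply, Pi.smul_apply, hcol,
      smul_eq_mul]
    ring
  by_cases hx : x = 0
  · have h1 : x i2 = 0 := by rw [hx, Pi.zero_apply]
    simp only [x, Pi.sub_apply, Pi.smul_apply, Pi.single_eq_same,
      Pi.single_eq_of_ne h12.symm, smul_eq_mul, mul_one, mul_zero, zero_sub, neg_eq_zero] at h1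
    refine key (Pi.single i1 1) (Pi.single_eq_of_ne h10.symm _) ?_ ?_
    · intro h
      have h2 := congrFun h i1
      rw [Pi.single_eq_same] at h2
      exact one_ne_zero h2
    · rw [hcol]
      exact h1
  · exact key x hx0 hx hCx

/-- **Real type gives an invariant symmetric form.** -/
theorem orth_of (hn : 2 ≤ n) {𝔯 : Submodule ℝ (M n)} (h : RR 𝔯) (hR : RealType 𝔯) :
    ∃ B : M n, IsUnit B.det ∧ Bᵀ = B ∧ ∀ X ∈ 𝔯, Xᵀ * B = -(B * X) := by
  obtain ⟨C, hCu, hC⟩ := hR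
  have hDu : IsUnit (Dm n).det := by
    have h1 : (Dm n).det * (Dm n).det = 1 := by rw [← Matrix.det_mul, Dm_sq, Matrix.det_one]
    exact IsUnit.of_mul_eq_one _ h1
  have hC' : ∀ X ∈ 𝔯, cj X * C⁻¹ = C⁻¹ * X := by
    intro X hX
    have e1 : C⁻¹ * (X * C) * C⁻¹ = C⁻¹ * (C * cj X) * C⁻¹ := by rw [hC X hX]
    rw [← Matrix.mul_assoc C⁻¹ C, Matrix.nonsing_inv_mul _ hCu, Matrix.one_mul,
      Matrix.mul_assoc, Matrix.mul_assoc, Matrix.mul_nonsing_inv _ hCu, Matrix.mul_one] at e1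
    exact e1.symm
  have hsk : ∀ X ∈ 𝔯, Xᵀ * Dm n = -(Dm n * cj X) := fun X hX => sk_eq (h.sk X hX)
  have hsk' : ∀ X ∈ 𝔯, (cj X)ᵀ * Dm n = -(Dm n * X) := by
    intro X hX
    have e1 := congrArg cj (hsk X hX)
    rw [cj_mul, cj_neg, cj_mul, cj_cj, cj_Dm, cj_tr] at e1
    exact e1
  -- the form `Cᵀ D C̄`
  have hH : ∀ X ∈ 𝔯, (cj X)ᵀ * (Cᵀ * Dm n * cj C) = -((Cᵀ * Dm n * cj C) * X) := by
    intro X hX
    have e1 : (cj X)ᵀ * Cᵀ = Cᵀ * Xᵀ := by
      rw [← Matrix.transpose_mul, ← Matrix.transpose_mul, hC X hX]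
    have e2 : cj X * cj C = cj C * X := by
      rw [← cj_mul, hC X hX, cj_mul, cj_cj]
    rw [← Matrix.mul_assoc, ← Matrix.mul_assoc, e1, Matrix.mul_assoc Cᵀ, hsk X hX,
      Matrix.mul_neg, Matrix.neg_mul, Matrix.mul_assoc, Matrix.mul_assoc, Matrix.mul_assoc,
      Matrix.mul_assoc, e2]
  obtain ⟨d, hd⟩ := prop' h (f := fun X => (cj X)ᵀ) hDu hsk' hH
  have hcu : (cj C).det ≠ 0 := by
    have e1 : (cj C).det = star C.det := ((starRingEnd ℂ).map_det C).symm
    rw [e1, Ne, star_eq_zero]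
    exact hCu.ne_zero
  have hd0 : d ≠ 0 := by
    intro h0
    have e1 : (Cᵀ * Dm n * cj C).det = 0 := by
      rw [hd, h0, zero_smul, Matrix.det_zero]
    rw [Matrix.det_mul, Matrix.det_mul, Matrix.det_transpose] at e1
    exact mul_ne_zero (mul_ne_zero hCu.ne_zero hDu.ne_zero) hcu e1
  obtain ⟨hpos, hq⟩ := pos_of hn hd hd0
  have hC00 : C 0 0 ≠ 0 := by
    intro h0
    have e1 : (C *ᵥ (Pi.single 0 1 : V n)) 0 = 0 := by
      rw [Matrix.mulVec_single_one]
      exact h0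
    have e2 := q_nonpos e1
    rw [hq, q_e0, mul_one] at e2
    linarith
  -- the bilinear form
  have hBu : IsUnit (Dm n * C⁻¹).det := by
    rw [Matrix.det_mul]
    exact hDu.mul (Matrix.isUnit_nonsing_inv_det _ hCu)
  have hB : ∀ X ∈ 𝔯, Xᵀ * (Dm n * C⁻¹) = -(Dm n * C⁻¹ * X) := by
    intro X hX
    rw [← Matrix.mul_assoc, hsk X hX, Matrix.neg_mul, Matrix.mul_assoc, hC' X hX,
      Matrix.mul_assoc]
  have hBt : ∀ X ∈ 𝔯, Xᵀ * (Dm n * C⁻¹)ᵀ = -((Dm n * C⁻¹)ᵀ * X) := by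
    intro X hX
    have e1 := congrArg Matrix.transpose (hB X hX)
    rw [Matrix.transpose_mul, Matrix.transpose_transpose, Matrix.transpose_neg,
      Matrix.transpose_mul (Dm n * C⁻¹) X] at e1
    rw [e1, neg_neg]
  obtain ⟨ε, hε⟩ := prop' h (f := fun X => Xᵀ) hBu hB hBt
  have hε1 : ε = 1 := by
    have e1 : Cᵀ * (Dm n * C⁻¹)ᵀ * C = Cᵀ * (ε • (Dm n * C⁻¹)) * C := by rw [hε]
    have e2 : Cᵀ * (Dm n * C⁻¹)ᵀ = Dm n := by
      rw [← Matrix.transpose_mul, Matrix.mul_assoc, Matrix.nonsing_inv_mul _ hCu, Matrix.mul_one,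
        Dm_tr]
    have e3 : Cᵀ * (ε • (Dm n * C⁻¹)) * C = ε • (Cᵀ * Dm n) := by
      rw [Matrix.mul_smul, Matrix.smul_mul, ← Matrix.mul_assoc, Matrix.mul_assoc (Cᵀ * Dm n),
        Matrix.nonsing_inv_mul _ hCu, Matrix.mul_one]
    rw [e2, e3] at e1
    have e4 := congrFun (congrFun e1 0) 0
    unfold Dm at e4
    rw [Matrix.diagonal_mul, Matrix.smul_apply, Matrix.mul_diagonal, Matrix.transpose_apply] at e4
    have e5 : ((sg1 n 0 : ℝ) : ℂ) = 1 := by
      unfold sg1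
      rw [if_pos rfl, Complex.ofReal_one]
    rw [e5, one_mul, mul_one, smul_eq_mul] at e4
    exact (mul_right_cancel₀ hC00 (by rw [one_mul]; exact e4)).symm
  rw [hε1, one_smul] at hε
  exact ⟨Dm n * C⁻¹, hBu, hε, hB⟩

/-- a non-degenerate symmetric matrix is a square -/
theorem diag_of {B : M n} (hB : IsUnit B.det) (hs : Bᵀ = B) : ∃ T : M n, Tᵀ * T = B := by
  let b : LinearMap.BilinForm ℂ (V n) := Matrix.toBilin' B
  have hb : ∀ x y, b x y = b y x := by
    intro x y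
    rw [Matrix.toBilin'_apply', Matrix.toBilin'_apply', Matrix.dotProduct_mulVec,
      ← Matrix.mulVec_transpose, hs, dotProduct_comm]
  have hsep : (QuadraticMap.associated (R := ℂ) b.toQuadraticMap).SeparatingLeft := by
    have e1 : QuadraticMap.associated (R := ℂ) b.toQuadraticMap = b :=
      QuadraticMap.associated_left_inverse ℂ hb
    rw [e1]
    have e2 : b.Nondegenerate :=
      LinearMap.BilinForm.nondegenerate_toBilin'_of_det_ne_zero' B hB.ne_zero
    exact e2.1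
  have h1 := QuadraticForm.equivalent_weightedSumSquares_of_isAlgClosed b.toQuadraticMap hsep
  have h2 : ∀ m, m = Module.finrank ℂ (V n) → QuadraticMap.Equivalent b.toQuadraticMap
      (QuadraticMap.weightedSumSquares ℂ (1 : Fin m → ℂ)) := by
    rintro _ rfl
    exact h1
  obtain ⟨f⟩ := h2 (n + 1) (Module.finrank_fin_fun ℂ).symm
  let T : M n := LinearMap.toMatrix' (f.toLinearEquiv : V n →ₗ[ℂ] V n)
  have hT : ∀ x : V n, T *ᵥ x = f x := by
    intro x
    rw [← Matrix.toLin'_apply, Matrix.toLin'_toMatrix']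
    rfl
  have hq : ∀ x : V n, (T *ᵥ x) ⬝ᵥ (T *ᵥ x) = x ⬝ᵥ (B *ᵥ x) := by
    intro x
    have e1 := f.map_app x
    rw [QuadraticMap.weightedSumSquares_apply] at e1
    have e2 : b.toQuadraticMap x = x ⬝ᵥ (B *ᵥ x) := by
      rw [LinearMap.BilinMap.toQuadraticMap_apply, Matrix.toBilin'_apply']
    rw [← e2, ← e1, hT]
    refine Finset.sum_congr rfl fun i _ => ?_
    rw [Pi.one_apply, one_smul]
  have hpol : ∀ x y : V n, (T *ᵥ x) ⬝ᵥ (T *ᵥ y) = x ⬝ᵥ (B *ᵥ y) := by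
    intro x y
    have e1 := hq (x + y)
    rw [Matrix.mulVec_add, Matrix.mulVec_add, dotProduct_add, add_dotProduct, add_dotProduct,
      dotProduct_add, add_dotProduct, add_dotProduct, hq, hq] at e1
    have e2 : (T *ᵥ y) ⬝ᵥ (T *ᵥ x) = (T *ᵥ x) ⬝ᵥ (T *ᵥ y) := dotProduct_comm _ _
    have e3 : y ⬝ᵥ (B *ᵥ x) = x ⬝ᵥ (B *ᵥ y) := by
      have := hb y x
      rwa [Matrix.toBilin'_apply', Matrix.toBilin'_apply'] at this
    rw [e2, e3] at e1
    have e4 : (2 : ℂ) * ((T *ᵥ x) ⬝ᵥ (T *ᵥ y)) = 2 * (x ⬝ᵥ (B *ᵥ y)) := by linear_combination e1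
    exact mul_left_cancel₀ two_ne_zero e4
  refine ⟨T, ?_⟩
  apply Matrix.ext
  intro i j
  have e1 := hpol (Pi.single i 1) (Pi.single j 1)
  rw [Matrix.mulVec_single_one, Matrix.mulVec_single_one, Matrix.mulVec_single_one,
    single_one_dotProduct] at e1
  exact e1

/-- **A Lie algebra of real type of signature `(1, n)` is skew-symmetric in a suitable basis.** -/
theorem real_basis (hn : 2 ≤ n) {𝔯 : Submodule ℝ (M n)} (h : RR 𝔯) (hR : RealType 𝔯) :
    ∃ U : M n, U.det ≠ 0 ∧ ∀ X ∈ 𝔯, ∃ M' : M n, X * U = U * M' ∧ M'ᵀ = -M' := by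
  obtain ⟨B, hB, hBs, hX⟩ := orth_of hn h hR
  obtain ⟨T, hT⟩ := diag_of hB hBs
  have hTu : IsUnit T.det := by
    have e1 : T.det * T.det = B.det := by
      rw [← hT, Matrix.det_mul, Matrix.det_transpose]
    exact isUnit_of_mul_isUnit_left (e1 ▸ hB)
  have hTt : IsUnit Tᵀ.det := by rw [Matrix.det_transpose]; exact hTu
  refine ⟨T⁻¹, (Matrix.isUnit_nonsing_inv_det _ hTu).ne_zero, fun X hXm => ⟨T * X * T⁻¹, ?_, ?_⟩⟩
  · rw [← Matrix.mul_assoc, ← Matrix.mul_assoc, Matrix.nonsing_inv_mul _ hTu, Matrix.one_mul]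
  · have e1 := hX X hXm
    rw [← hT, Matrix.mul_assoc] at e1
    -- `Xᵀ Tᵀ T = - Tᵀ T X`
    have e2 : (Tᵀ)⁻¹ * (Xᵀ * (Tᵀ * T)) * T⁻¹ = -(T * X * T⁻¹) := by
      rw [e1, Matrix.mul_neg, Matrix.neg_mul, ← Matrix.mul_assoc, Matrix.nonsing_inv_mul _ hTt,
        Matrix.one_mul]
    rw [Matrix.transpose_mul, Matrix.transpose_mul, Matrix.transpose_nonsing_inv, ← e2,
      ← Matrix.mul_assoc Xᵀ, Matrix.mul_assoc, Matrix.mul_assoc, Matrix.mul_nonsing_inv _ hTu,
      Matrix.mul_one]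

end Run7.h2.EXT
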