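import Pool.Agent.Run7.h2.EXT.E1
import Pool.Agent.Run7.h2.EXT.E2
import Pool.Agent.N521.LCHBG

set_option autoImplicit false
set_option linter.unusedSectionVars false

/-!
# The middle exterior power excludes the orthogonal Lie algebras
-/

open Module Matrix

noncomputable section

namespace Run7.h2.EXT

open Pool.Agent Pool.Agent.Y102 Pool.Agent.W516.DR Pool.Agent.H204R3.GP Pool.Agent.W516.KC
  Pool.Agent.H204R3.SP Pool.Agent.TH119.MX Pool.Agent.R917 Pool.Agent.N208.AM Pool.Agent.N208.AD
  Pool.Agent.N208.BT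

variable {k N : ℕ}

/-! ### The derivation as a linear map -/

/-- the derivation, as an alternating map -/
def drA (m : Matrix (Fin N) (Fin N) ℂ) : (W N) [⋀^Fin k]→ₗ[ℂ] (Lk k N) where
  toFun v := ∑ j, exteriorPower.ιMulti ℂ k (Function.update v j (m *ᵥ v j))
  map_update_add' := by
    intro inst v i x y
    have hi : inst = instDecidableEqFin k := Subsingleton.elim _ _
    subst hi
    rw [← Finset.sum_add_distrib]
    refine Finset.sum_congr rfl fun j _ => ?_
    by_cases h : j = i
    · subst h
      rw [Function.update_self, Function.update_self, Function.update_self,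
        Function.update_idem, Function.update_idem, Function.update_idem, Matrix.mulVec_add]
      exact (exteriorPower.ιMulti ℂ k (M := W N)).map_update_add _ _ _ _
    · rw [Function.update_of_ne h, Function.update_of_ne h, Function.update_of_ne h,
        Function.update_comm (Ne.symm h), Function.update_comm (Ne.symm h),
        Function.update_comm (Ne.symm h)]
      exact (exteriorPower.ιMulti ℂ k (M := W N)).map_update_add _ _ _ _
  map_update_smul' := by
    intro inst v i c x
    have hi : inst = instDecidableEqFin k := Subsingleton.elim _ _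
    subst hi
    rw [Finset.smul_sum]
    refine Finset.sum_congr rfl fun j _ => ?_
    by_cases h : j = i
    · subst h
      rw [Function.update_self, Function.update_self,
        Function.update_idem, Function.update_idem, Matrix.mulVec_smul]
      exact (exteriorPower.ιMulti ℂ k (M := W N)).map_update_smul _ _ _ _
    · rw [Function.update_of_ne h, Function.update_of_ne h,
        Function.update_comm (Ne.symm h), Function.update_comm (Ne.symm h)]
      exact (exteriorPower.ιMulti ℂ k (M := W N)).map_update_smul _ _ _ _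
  map_eq_zero_of_eq' := by
    intro v i j hij hne
    rw [Fintype.sum_eq_add i j hne]
    · have h1 : Function.update v j (m *ᵥ v j) =
          Function.update v i (m *ᵥ v i) ∘ Equiv.swap i j := by
        funext l
        rw [Function.comp_apply]
        by_cases hl : l = j
        · subst hl
          rw [Equiv.swap_apply_right, Function.update_self, Function.update_self, hij]
        · rw [Function.update_of_ne hl]
          by_cases hl' : l = i
          · subst hl'
            rw [Equiv.swap_apply_left, Function.update_of_ne (Ne.symm hl), hij]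
          · rw [Equiv.swap_apply_of_ne_of_ne hl' hl, Function.update_of_ne hl']
      rw [h1, (exteriorPower.ιMulti ℂ k (M := W N)).map_swap _ hne, add_neg_cancel]
    · rintro l ⟨hl1, hl2⟩
      refine (exteriorPower.ιMulti ℂ k (M := W N)).map_eq_zero_of_eq _ (i := i) (j := j) ?_ hne
      rw [Function.update_of_ne (Ne.symm hl1), Function.update_of_ne (Ne.symm hl2), hij]

/-- the derivation -/
def drL (m : Matrix (Fin N) (Fin N) ℂ) : Lk k N →ₗ[ℂ] Lk k N :=
  exteriorPower.alternatingMapLinearEquiv (drA m)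

theorem drL_ι (m : Matrix (Fin N) (Fin N) ℂ) (v : Fin k → W N) :
    drL m (exteriorPower.ιMulti ℂ k v) = dr m v :=
  exteriorPower.alternatingMapLinearEquiv_apply_ιMulti _ _

theorem dr_scalar (c : ℂ) (v : Fin k → W N) :
    dr (c • (1 : Matrix (Fin N) (Fin N) ℂ)) v = ((k : ℂ) * c) • exteriorPower.ιMulti ℂ k v := by
  unfold dr
  have h1 : ∀ j, exteriorPower.ιMulti ℂ k
      (Function.update v j ((c • (1 : Matrix (Fin N) (Fin N) ℂ)) *ᵥ v j)) =
      c • exteriorPower.ιMulti ℂ k v := by
    intro j
    rw [Matrix.smul_mulVec, Matrix.one_mulVec,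
      (exteriorPower.ιMulti ℂ k (M := W N)).map_update_smul, Function.update_eq_self]
  rw [Finset.sum_congr rfl fun j _ => h1 j, Finset.sum_const, Finset.card_univ, Fintype.card_fin,
    ← Nat.cast_smul_eq_nsmul ℂ, smul_smul]

/-- the star operator commutes with the derivation -/
theorem star_drL (e : Fin k ⊕ Fin k ≃ Fin N) {U m M : Matrix (Fin N) (Fin N) ℂ}
    (hU : m * U = U * M) (hM : ∀ r s, M r s = -M s r) (hm : m.trace = 0) :
    drL m * star' e U = star' e U * drL m := by
  refine exteriorPower.linearMap_ext ?_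
  refine AlternatingMap.ext fun v => ?_
  change drL m (star' e U (exteriorPower.ιMulti ℂ k v)) =
    star' e U (drL m (exteriorPower.ιMulti ℂ k v))
  rw [star_ι, drL_ι, Th_apply, map_sum]
  unfold dr
  rw [map_sum]
  have h1 := star_comm e hU hM hm v
  have h2 : ∀ j, star' e U (exteriorPower.ιMulti ℂ k (Function.update v j (m *ᵥ v j))) =
      Th e U (Function.update v j (m *ᵥ v j)) := fun j => star_ι e U _
  rw [Finset.sum_congr rfl fun j _ => h2 j, h1]
  refine Finset.sum_congr rfl fun t _ => ?_
  rw [map_smul, drL_ι]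

/-- all elements are sums of decomposable elements -/
theorem real_ext {E : Type} [AddCommGroup E] [Module ℝ E] (hk : 0 < k) {f h : Lk k N →ₗ[ℝ] E}
    (hfh : ∀ v : Fin k → W N, f (exteriorPower.ιMulti ℂ k v) = h (exteriorPower.ιMulti ℂ k v)) :
    f = h := by
  have key : ∀ x : Lk k N, ∀ c : ℂ, f (c • x) = h (c • x) := by
    intro x
    have hx : x ∈ Submodule.span ℂ (Set.range (exteriorPower.ιMulti ℂ k (M := W N))) := by
      rw [exteriorPower.ιMulti_span]
      exact Submodule.mem_top
    induction hx using Submodule.span_induction with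
    | mem x hx =>
      obtain ⟨v, rfl⟩ := hx
      intro c
      have h1 : c • exteriorPower.ιMulti ℂ k v =
          exteriorPower.ιMulti ℂ k (Function.update v ⟨0, hk⟩ (c • v ⟨0, hk⟩)) := by
        rw [(exteriorPower.ιMulti ℂ k (M := W N)).map_update_smul, Function.update_eq_self]
      rw [h1]
      exact hfh _
    | zero => intro c; rw [smul_zero, map_zero, map_zero]
    | add a b _ _ ha hb => intro c; rw [smul_add, map_add, map_add, ha, hb]
    | smul a x _ hx => intro c; rw [smul_smul]; exact hx _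
  refine LinearMap.ext fun x => ?_
  have h1 := key x 1
  rwa [one_smul] at h1

/-! ### Alternating forms -/

/-- the space of the alternating forms -/
abbrev Al (k N : ℕ) : Type := (W N) [⋀^Fin k]→ₗ[ℂ] ℂ

/-- the linear form on the exterior power given by an alternating form -/
def lf : Al k N ≃ₗ[ℂ] (Lk k N →ₗ[ℂ] ℂ) := exteriorPower.alternatingMapLinearEquiv

/-- the transposed operator -/
def tr (T : Module.End ℂ (Lk k N)) : Module.End ℂ (Al k N) where
  toFun ω := lf.symm ((lf ω).comp T)
  map_add' a b := by rw [map_add, LinearMap.add_comp, map_add]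
  map_smul' c a := by rw [map_smul, LinearMap.smul_comp, map_smul, RingHom.id_apply]

theorem tr_apply (T : Module.End ℂ (Lk k N)) (ω : Al k N) (v : Fin k → W N) :
    tr T ω v = lf ω (T (exteriorPower.ιMulti ℂ k v)) := by
  have h1 : lf (tr T ω) = (lf ω).comp T := by
    change lf (lf.symm ((lf ω).comp T)) = _
    rw [LinearEquiv.apply_symm_apply]
  have h2 : tr T ω v = lf (tr T ω) (exteriorPower.ιMulti ℂ k v) :=
    (exteriorPower.alternatingMapLinearEquiv_apply_ιMulti _ _).symm
  rw [h2, h1, LinearMap.comp_apply]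

theorem tr_mul (T T' : Module.End ℂ (Lk k N)) : tr (T * T') = tr T' * tr T := by
  refine LinearMap.ext fun ω => ?_
  change lf.symm ((lf ω).comp (T * T')) = lf.symm ((lf (lf.symm ((lf ω).comp T))).comp T')
  rw [LinearEquiv.apply_symm_apply]
  rfl

theorem tr_drL (m : Matrix (Fin N) (Fin N) ℂ) (ω : Al k N) (v : Fin k → W N) :
    tr (drL m) ω v = ∑ j, ω (Function.update v j (m *ᵥ v j)) := by
  rw [tr_apply, drL_ι]
  unfold dr
  rw [map_sum]
  exact Finset.sum_congr rfl fun j _ => exteriorPower.alternatingMapLinearEquiv_apply_ιMulti _ _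

theorem tr_scalar (T : Module.End ℂ (Lk k N)) (c : ℂ) (h : tr T = c • 1) : T = c • 1 := by
  refine LinearMap.ext fun x => ?_
  rw [← sub_eq_zero, ← Module.forall_dual_apply_eq_zero_iff ℂ]
  intro f
  have h1 := congrArg lf (LinearMap.congr_fun h (lf.symm f))
  change lf (lf.symm ((lf (lf.symm f)).comp T)) = lf (c • lf.symm f) at h1
  rw [LinearEquiv.apply_symm_apply, LinearEquiv.apply_symm_apply, map_smul,
    LinearEquiv.apply_symm_apply] at h1
  have h2 := LinearMap.congr_fun h1 x
  rw [LinearMap.comp_apply, LinearMap.smul_apply] at h2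
  rw [map_sub, h2, sub_eq_zero]
  change c • f x = f (c • x)
  rw [map_smul]

/-! ### The exterior power in the homology -/

variable {g : ℕ} {A : AbVar g} {z : Module.End ℚ A.H1} {al : ℝ}

/-- `Ψ` is the exterior power of the dual of `φ`, twisted by a character, and simple -/
structure IsExt (φ : VN N →ₗ[ℝ] (Fin g → ℂ)) (Ψ : Al k N →ₗ[ℝ] (Fin g → ℂ)) : Prop where
  inj : Function.Injective Ψ
  lie : ∀ X ∈ A.NA, ∀ m : MN N, (∀ x, A.ext X (φ x) = φ (m *ᵥ x)) → ∃ c : ℂ, ∀ ω ω' : Al k N,
    (∀ v, ω' v = c * ω v - ∑ j, ω (Function.update v j (m *ᵥ v j))) → A.ext X (Ψ ω) = Ψ ω'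
  simple : ∀ U : Submodule ℂ (Al k N), (∀ X ∈ A.NA, ∀ x ∈ U, ∀ y, A.ext X (Ψ x) = Ψ y → y ∈ U) →
    U = ⊥ ∨ U = ⊤

theorem lie' {φ : VN N →ₗ[ℝ] (Fin g → ℂ)} {Ψ : Al k N →ₗ[ℝ] (Fin g → ℂ)}
    (h : IsExt (A := A) φ Ψ) {X : Module.End ℚ A.H1} (hX : X ∈ A.NA) {m : MN N}
    (hm : ∀ x, A.ext X (φ x) = φ (m *ᵥ x)) :
    ∃ c : ℂ, ∀ x, A.ext X (Ψ x) = Ψ (c • x - tr (drL m) x) := by
  obtain ⟨c, hc⟩ := h.lie X hX m hm
  refine ⟨c, fun x => hc _ _ fun v => ?_⟩
  change c * x v - tr (drL m) x v = _
  rw [tr_drL]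

/-- **The contradiction.** -/
theorem no_real {sg : Fin N → ℝ} {φ : VN N →ₗ[ℝ] (Fin g → ℂ)} (hQ : HQ A z al)
    (w : WN A z al N sg φ) (e : Fin k ⊕ Fin k ≃ Fin N) (hk : 0 < k)
    {Ψ : Al k N →ₗ[ℝ] (Fin g → ℂ)} (h : IsExt (A := A) φ Ψ)
    {𝔮 : Submodule ℚ (Module.End ℚ A.H1)} (hq : A.Full 𝔮) {U : MN N} (hU : U.det ≠ 0)
    (hr : ∀ m ∈ rN A (der 𝔮) φ, ∃ M' : MN N, m * U = U * M' ∧ M'ᵀ = -M') : False := by
  -- the subalgebra
  let S : Subalgebra ℚ (Module.End ℚ A.H1) :=
    { carrier := {X | ∃ T : Module.End ℂ (Al k N), (∀ x, A.ext X (Ψ x) = Ψ (T x)) ∧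
        T * tr (star' e U) = tr (star' e U) * T}
      mul_mem' := by
        rintro a b ⟨T, h1, h2⟩ ⟨T', h1', h2'⟩
        refine ⟨T * T', fun x => ?_, ?_⟩
        · rw [ext_mul, Module.End.mul_apply, h1', h1]
          rfl
        · rw [mul_assoc, h2', ← mul_assoc, h2, mul_assoc]
      add_mem' := by
        rintro a b ⟨T, h1, h2⟩ ⟨T', h1', h2'⟩
        refine ⟨T + T', fun x => ?_, ?_⟩
        · rw [ext_add, LinearMap.add_apply, h1, h1', LinearMap.add_apply, map_add]
        · rw [add_mul, mul_add, h2, h2']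
      algebraMap_mem' := by
        intro c
        refine ⟨((c : ℝ) : ℂ) • 1, fun x => ?_, ?_⟩
        · rw [Algebra.algebraMap_eq_smul_one, ext_smul, LinearMap.smul_apply, LinearMap.smul_apply]
          have h1 : A.ext 1 = 1 := Pool.Agent.N768.BGPD.ext_one
          have h2 : (((c : ℝ) : ℂ) • (1 : Module.End ℂ (Al k N)) x : Al k N) = (c : ℝ) • x := by
            refine AlternatingMap.ext fun v => ?_
            change ((c : ℝ) : ℂ) • x v = (c : ℝ) • x v
            rw [Complex.coe_smul]
          rw [h1, h2, map_smul]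
          rfl
        · rw [smul_mul_assoc, mul_smul_comm, one_mul, mul_one] }
  -- the matrices of the elements of the Lie algebra
  let St : Set (MN N) := {m | ∃ X ∈ A.NA, ∀ x, A.ext X (φ x) = φ (m *ᵥ x)}
  have hirr : Irrs St := by
    intro U' hU'
    refine w.simple U' fun X hX x hx y hy => ?_
    obtain ⟨m, hm⟩ := N441.BGSJ.mat_NA hQ w hX
    have h3 : y = m *ᵥ x := w.inj (by rw [← hy, hm])
    rw [h3]
    exact hU' m ⟨X, hX, hm⟩ x hx
  have h𝔮 : (𝔮 : Set (Module.End ℚ A.H1)) ⊆ S := by
    intro X hX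
    obtain ⟨Z, hZ, d, hd, rfl, hZc⟩ := hq.dec hX
    refine S.add_mem ?_ ?_
    · -- the centre
      have hZN : ∀ Y ∈ A.NA, Y * Z = Z * Y := hq.comm Z fun Y hY => (hZc Y hY).symm
      obtain ⟨m, hm⟩ := N441.BGSJ.mat_NA hQ w (hq.le hZ)
      obtain ⟨c, hc⟩ := Run7.h2.OB.schur w.pos hirr (T := m) (by
        rintro m' ⟨Y, hY, hm'⟩
        refine Matrix.mulVec_injective (funext fun x => w.inj ?_)
        have e1 := congrArg (fun F => A.ext F (φ x)) (hZN Y hY)
        simp only [ext_mul, Module.End.mul_apply] at e1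
        rw [hm, hm', hm', hm, Matrix.mulVec_mulVec, Matrix.mulVec_mulVec] at e1
        exact e1.symm)
      obtain ⟨c', hc'⟩ := h.lie Z (hq.le hZ) m hm
      refine ⟨(c' - (k : ℂ) * c) • 1, fun x => hc' _ _ fun v => ?_, ?_⟩
      · have h1 : ∀ j, x (Function.update v j (m *ᵥ v j)) = c * x v := by
          intro j
          rw [hc, Matrix.smul_mulVec, Matrix.one_mulVec, AlternatingMap.map_update_smul,
            Function.update_eq_self, smul_eq_mul]
        change (c' - (k : ℂ) * c) * x v = _
        rw [Finset.sum_congr rfl fun j _ => h1 j, Finset.sum_const, Finset.card_univ,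
          Fintype.card_fin, nsmul_eq_mul]
        ring
      · rw [smul_mul_assoc, mul_smul_comm, one_mul, mul_one]
    · -- the derived algebra
      have hdN : d ∈ A.NA := hq.le (hq.der_le hd)
      obtain ⟨m, hm⟩ := N441.BGSJ.mat_NA hQ w hdN
      obtain ⟨M', h1, h2⟩ := hr m ⟨A.ext d, Submodule.subset_span ⟨d, hd, rfl⟩, hm⟩
      obtain ⟨c, hc⟩ := lie' h hdN hm
      refine ⟨c • 1 - tr (drL m), fun x => hc x, ?_⟩
      have hsk : ∀ r s, M' r s = -M' s r := fun r s => by
        have := congrFun (congrFun h2 s) r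
        exact this
      have htr : m.trace = 0 := by
        have e2 : M'.trace = 0 := by
          have e3 := congrArg Matrix.trace h2
          rw [Matrix.trace_transpose, Matrix.trace_neg] at e3
          exact self_eq_neg.1 e3
        have e4 : m = U * M' * U⁻¹ := by
          rw [← h1, Matrix.mul_assoc, Matrix.mul_nonsing_inv _ (isUnit_iff_ne_zero.2 hU),
            Matrix.mul_one]
        rw [e4, Matrix.trace_mul_comm, ← Matrix.mul_assoc,
          Matrix.nonsing_inv_mul _ (isUnit_iff_ne_zero.2 hU), Matrix.one_mul, e2]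
      rw [sub_mul, mul_sub, ← tr_mul, ← tr_mul, star_drL e h1 hsk htr, smul_mul_assoc,
        mul_smul_comm, one_mul, mul_one]
  have hNA : ∀ X ∈ A.NA, X ∈ S := fun X hX =>
    (Algebra.adjoin_le h𝔮 : Algebra.adjoin ℚ (𝔮 : Set (Module.End ℚ A.H1)) ≤ S) (hq.adjoin hX)
  -- the star operator is a scalar
  have key : ∀ c : ℂ, tr (star' e U) ≠ c • 1 := by
    intro c hc
    refine star_not e hk hU c fun v => ?_
    have h2 := LinearMap.congr_fun (tr_scalar _ _ hc) (exteriorPower.ιMulti ℂ k v)
    rw [star_ι] at h2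
    exact h2
  have hnt : Nontrivial (Al k N) := by
    by_contra hn
    rw [not_nontrivial_iff_subsingleton] at hn
    exact key 0 (LinearMap.ext fun ω => Subsingleton.elim _ _)
  have : FiniteDimensional ℂ (Al k N) :=
    LinearEquiv.finiteDimensional (lf (k := k) (N := N)).symm
  obtain ⟨c, hc⟩ := Module.End.exists_eigenvalue (tr (star' e U))
  rcases h.simple (Module.End.eigenspace (tr (star' e U)) c) (fun X hX x hx y hy => by
    obtain ⟨T, hT, hTs⟩ := hNA X hX
    have h1 : y = T x := h.inj (by rw [← hy, hT])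
    rw [Module.End.mem_eigenspace_iff] at hx ⊢
    have h2 := LinearMap.congr_fun hTs x
    rw [Module.End.mul_apply, Module.End.mul_apply] at h2
    rw [h1, ← h2, hx, map_smul]) with h1 | h1
  · exact hc h1
  · refine key c (LinearMap.ext fun x => ?_)
    have h2 : x ∈ Module.End.eigenspace (tr (star' e U)) c := by
      rw [h1]
      exact Submodule.mem_top
    rw [Module.End.mem_eigenspace_iff] at h2
    exact h2

end Run7.h2.EXT
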