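import Pool.Agent.Run7.h2.EXT.E3

set_option autoImplicit false
set_option linter.unusedSectionVars false

/-!
# The middle exterior power: the long roots
-/

open Module Matrix

noncomputable section

namespace Run7.h2.EXT

open Pool.Agent Pool.Agent.Y102 Pool.Agent.W516.DR Pool.Agent.H204R3.GP Pool.Agent.W516.KC
  Pool.Agent.H204R3.SP Pool.Agent.TH119.MX Pool.Agent.R917 Pool.Agent.N208.AM Pool.Agent.N208.AD
  Pool.Agent.N208.BT Pool.Agent.N521.LCHBG

variable {g : ℕ} {A : AbVar g} {z : Module.End ℚ A.H1} {al : ℝ}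

/-- the indexing of the variables -/
theorem exists_e {k N : ℕ} (h : N = 2 * k) : Nonempty (Fin k ⊕ Fin k ≃ Fin N) := by
  subst h
  exact ⟨finSumFinEquiv.trans (finCongr (two_mul k).symm)⟩

/-- **A ball place with the middle exterior power: all full subalgebras contain the long roots.** -/
theorem big_ext (hp : HP A z al) (hE : ∃ x, x ≠ 0 ∧ Eig A z (-al) x) {N : ℕ} {sg : Fin N → ℝ}
    {φ : VN N →ₗ[ℝ] (Fin g → ℂ)} (w : WN A z al N sg φ) {k : ℕ} (hk : 2 ≤ k) (hN : N = 2 * k)
    {Ψ : Al k N →ₗ[ℝ] (Fin g → ℂ)} (h : IsExt (A := A) φ Ψ) :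
    Mixed sg ∧ ∀ 𝔮 : Submodule ℚ (Module.End ℚ A.H1), A.Full 𝔮 → Big sg (rN A (der 𝔮) φ) := by
  obtain ⟨e⟩ := exists_e hN
  have hm : Mixed sg := mixed_of hp.toHQ hp.ex hE w
  refine ⟨hm, fun 𝔮 hq => ?_⟩
  obtain ⟨i, hi⟩ := hm.1
  obtain ⟨n, rfl⟩ : ∃ n, N = n + 1 := ⟨N - 1, by have := w.pos; omega⟩
  have hn : 2 ≤ n := by omega
  let s : Fin (n + 1) → Fin (n + 1) := Equiv.swap i 0
  have hs : ∀ k, s (s k) = k := fun k => Equiv.swap_apply_self i 0 k
  have hsg : ∀ k, sg k = sg1 n (s k) := by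
    intro k
    unfold sg1
    by_cases hk : k = i
    · subst hk
      have h1 : s k = 0 := Equiv.swap_apply_left k 0
      rw [if_pos h1, hi]
    · have h1 : s k ≠ 0 := by
        intro h1
        apply hk
        have h2 : s (s k) = s 0 := by rw [h1]
        rw [hs] at h2
        rw [h2]
        exact Equiv.swap_apply_right i 0
      rw [if_neg h1]
      rcases w.isSg k with h2 | h2
      · exact absurd (unique_pos hp w h2 hi) hk
      · exact h2
  have hWD := toWD hs hsg w
  have hRR := Pool.Agent.N163.BTRR2.main g A z al hp n _ hWD 𝔮 hq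
  have hnr : ¬ RealType (rW A (der 𝔮) (psi φ s)) := by
    intro hR
    obtain ⟨U, hU, hX⟩ := real_basis hn hRR hR
    -- the permutation matrix
    let Pm : MN (n + 1) := Matrix.of fun i j => if s i = j then 1 else 0
    have hPm : ∀ x : VN (n + 1), Pm *ᵥ x = x ∘ s := by
      intro x
      funext i
      simp only [Pm, Matrix.mulVec, dotProduct, Matrix.of_apply, ite_mul, one_mul, zero_mul,
        Finset.sum_ite_eq, Finset.mem_univ, if_true, Function.comp_apply]
    have hPP : Pm * Pm = 1 := by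
      refine Matrix.mulVec_injective (funext fun x => ?_)
      rw [← Matrix.mulVec_mulVec, hPm, hPm, comp_s hs, Matrix.one_mulVec]
    refine no_real hp.toHQ w e (by omega) h hq (U := Pm * U) ?_ ?_
    · rw [Matrix.det_mul]
      refine mul_ne_zero ?_ hU
      intro h0
      have h1 := congrArg Matrix.det hPP
      rw [Matrix.det_mul, h0, zero_mul, Matrix.det_one] at h1
      exact zero_ne_one h1
    · rintro m ⟨y, hy, hym⟩
      obtain ⟨M', h1, h2⟩ := hX (Pm * m * Pm) ⟨y, hy, fun x => by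
        rw [psi_apply, psi_apply, hym, ← Matrix.mulVec_mulVec, ← Matrix.mulVec_mulVec, hPm, hPm,
          comp_s hs]⟩
      refine ⟨M', ?_, h2⟩
      rw [Matrix.mul_assoc, ← h1, ← Matrix.mul_assoc, ← Matrix.mul_assoc, ← Matrix.mul_assoc,
        ← Matrix.mul_assoc, hPP, Matrix.one_mul]
  have hbig := (local_main n _ hRR).resolve_right hnr
  intro x hx
  have hx' : hf (x ∘ s) (x ∘ s) = 0 := by
    rw [← hs_comp hs hsg, comp_s hs, hx]
  obtain ⟨y, hy, h1⟩ := hbig (x ∘ s) hx'
  refine ⟨y, hy, fun v => ?_⟩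
  have e1 : φ v = psi φ s (v ∘ s) := (psi_comp hs v).symm
  rw [e1, h1, psi_apply]
  congr 1
  rw [Matrix.smul_mulVec, Matrix.smul_mulVec, N521.LCHBG.R_mulVec, Pool.Agent.N768.BG.Rs_mulVec]
  have e2 : hf (v ∘ s) (x ∘ s) = Pool.Agent.N208.BT.hs sg v x := by
    rw [← hs_comp hs hsg, comp_s hs, comp_s hs]
  rw [e2]
  funext k
  change Complex.I • (Pool.Agent.N208.BT.hs sg v x • (x (s (s k)))) = _
  rw [hs]
  rfl

end Run7.h2.EXT
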