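import Pool.Agent.Run7.h2.EXT.E4
import Pool.Agent.N755.BGWA

set_option autoImplicit false
set_option linter.unusedSectionVars false

/-!
# The exterior power of one simple module gives the exterior powers of all
-/

open Module Matrix

noncomputable section

namespace Run7.h2.EXT

open Pool.Agent Pool.Agent.Y102 Pool.Agent.W516.DR Pool.Agent.H204R3.GP Pool.Agent.W516.KC
  Pool.Agent.H204R3.SP Pool.Agent.TH119.MX Pool.Agent.R917 Pool.Agent.N208.AM Pool.Agent.N208.AD
  Pool.Agent.N208.BT Pool.Agent.N755.BGWA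

variable {g : ℕ} {A : AbVar g} {z : Module.End ℚ A.H1} {al : ℝ}

/-- a simple module at the place -/
structure SM (A : AbVar g) (z : Module.End ℚ A.H1) (al : ℝ) {N : ℕ}
    (φ : VN N →ₗ[ℝ] (Fin g → ℂ)) : Prop where
  inj : Function.Injective φ
  mulz : ∀ x, A.ext z (φ x) = φ (((al : ℂ) * Complex.I) • x)
  stab : ∀ X ∈ A.NA, ∀ x, ∃ y, A.ext X (φ x) = φ y
  simple : ∀ U : Submodule ℂ (VN N), (∀ X ∈ A.NA, ∀ x ∈ U, ∀ y, A.ext X (φ x) = φ y → y ∈ U) →
    U = ⊥ ∨ U = ⊤

theorem wn_sm (hQ : HQ A z al) {N : ℕ} {sg : Fin N → ℝ} {φ : VN N →ₗ[ℝ] (Fin g → ℂ)}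
    (w : WN A z al N sg φ) : SM A z al φ where
  inj := w.inj
  mulz := fun x => by
    have h1 : φ (((al : ℂ) * Complex.I) • x) = al • φ (Complex.I • x) := by
      rw [mul_smul, Complex.coe_smul, map_smul]
    rw [h1, w.mulI, smul_smul, mul_inv_cancel₀ hQ.ne, one_smul]
  stab := w.stab
  simple := w.simple

variable {N N' : ℕ} {φ : VN N →ₗ[ℝ] (Fin g → ℂ)} {φ' : VN N' →ₗ[ℝ] (Fin g → ℂ)}

theorem SM.good (h : SM A z al φ) : Good A z (LinearMap.range φ) where
  stab := by
    rintro X hX _ ⟨x, rfl⟩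
    obtain ⟨y, hy⟩ := h.stab X hX x
    exact ⟨y, hy.symm⟩
  stabz := by
    rintro _ ⟨x, rfl⟩
    exact ⟨_, (h.mulz x).symm⟩

theorem SM.le (h : SM A z al φ) : LinearMap.range φ ≤ V0 A z al := by
  rintro _ ⟨x, rfl⟩
  have h2 : ((al : ℂ) * Complex.I) • ((al : ℂ) * Complex.I) • x = -((al ^ 2) • x) := by
    rw [smul_smul, ← Complex.coe_smul, ← neg_smul]
    congr 1
    push_cast
    linear_combination (al : ℂ) ^ 2 * Complex.I_sq
  rw [mem_V0, h.mulz, h.mulz, h2, map_neg, map_smul, neg_add_cancel]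

/-- two simple modules at the same place are isomorphic -/
theorem iso_of (hQ : HQ A z al) (h : SM A z al φ) (hN : 0 < N) (h' : SM A z al φ')
    (hN' : 0 < N') : ∃ (T : VN N ≃ₗ[ℂ] VN N') (S : Module.End ℝ (Fin g → ℂ)),
      (∀ X ∈ A.NA, ∀ x, S (A.ext X x) = A.ext X (S x)) ∧ ∀ x, S (φ x) = φ' (T x) := by
  have hne : ∀ {N : ℕ} {φ : VN N →ₗ[ℝ] (Fin g → ℂ)} (_ : SM A z al φ) (hN : 0 < N),
      φ (Pi.single ⟨0, hN⟩ 1) ≠ 0 := by
    intro N φ h hN h0
    have h1 : (Pi.single ⟨0, hN⟩ 1 : VN N) = 0 := h.inj (by rw [h0, map_zero])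
    have h2 := congrFun h1 ⟨0, hN⟩
    rw [Pi.single_eq_same] at h2
    exact one_ne_zero h2
  obtain ⟨e', he1, he2, -, he4⟩ := exists_proj A (LinearMap.range φ')
  -- a suitable endomorphism
  obtain ⟨P, hP, x₀, hx₀⟩ : ∃ P ∈ A.EA, ∃ x, e' (A.ext P (φ x)) ≠ 0 := by
    by_contra hcon
    push Not at hcon
    have h3 := gen_of hQ h.good h.le (e0 := φ (Pi.single ⟨0, hN⟩ 1)) ⟨_, rfl⟩ (hne h hN)
      (h'.le ⟨Pi.single ⟨0, hN'⟩ 1, rfl⟩)
    have h4 : ∀ y ∈ Submodule.span ℝ {w' | ∃ P ∈ A.EA, ∃ w ∈ LinearMap.range φ,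
        w' = A.ext P w}, e' y = 0 := by
      intro y hy
      induction hy using Submodule.span_induction with
      | mem y hy =>
        obtain ⟨P, hP, _, ⟨x, rfl⟩, rfl⟩ := hy
        exact hcon P hP x
      | zero => exact map_zero _
      | add a b _ _ ha hb => rw [map_add, ha, hb, add_zero]
      | smul r a _ ha => rw [map_smul, ha, smul_zero]
    have h5 := h4 _ h3
    rw [he2 _ ⟨_, rfl⟩] at h5
    exact hne h' hN' h5
  have hgp := Good.perp hQ h'.good
  have heX : ∀ X ∈ A.NA, ∀ x, e' (A.ext X x) = A.ext X (e' x) := fun X hX =>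
    he4 _ (h'.good.stab X hX) (hgp.stab X hX)
  have hez : ∀ x, e' (A.ext z x) = A.ext z (e' x) := he4 _ h'.good.stabz hgp.stabz
  let S : Module.End ℝ (Fin g → ℂ) := e' * A.ext P
  have hSX : ∀ X ∈ A.NA, ∀ x, S (A.ext X x) = A.ext X (S x) := by
    intro X hX x
    change e' (A.ext P (A.ext X x)) = A.ext X (e' (A.ext P x))
    rw [← NA_ext hX hP, heX X hX]
  have hSz : ∀ x, S (A.ext z x) = A.ext z (S x) := by
    intro x
    change e' (A.ext P (A.ext z x)) = A.ext z (e' (A.ext P x))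
    rw [← z_ext hQ hP, hez]
  have hSr : ∀ x, ∃ y, φ' y = S (φ x) := fun x => he1 _
  choose f hf using hSr
  have hfa : ∀ x y, f (x + y) = f x + f y := fun x y => h'.inj (by
    rw [hf, map_add, map_add, map_add, hf, hf])
  have hfr : ∀ (c : ℝ) x, f (c • x) = c • f x := fun c x => h'.inj (by
    rw [hf, map_smul, map_smul, map_smul, hf])
  have hfz : ∀ x, f (((al : ℂ) * Complex.I) • x) = ((al : ℂ) * Complex.I) • f x := fun x =>
    h'.inj (by rw [hf, ← h.mulz, hSz, ← hf, h'.mulz])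
  have hfI : ∀ x, f (Complex.I • x) = Complex.I • f x := by
    intro x
    have h1 : ∀ {N : ℕ} (x : VN N), Complex.I • x = al⁻¹ • (((al : ℂ) * Complex.I) • x) := by
      intro N x
      rw [← Complex.coe_smul, smul_smul, ← mul_assoc, Complex.ofReal_inv, inv_mul_cancel₀, one_mul]
      exact_mod_cast hQ.ne
    rw [h1, hfr, hfz, ← h1]
  let F : VN N →ₗ[ℂ] VN N' :=
    { toFun := f
      map_add' := hfa
      map_smul' := fun c x => by
        rw [RingHom.id_apply]
        have h1 : ∀ {N : ℕ} (x : VN N), c • x = c.re • x + c.im • (Complex.I • x) := by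
          intro N x
          rw [← Complex.coe_smul, ← Complex.coe_smul, smul_smul, ← add_smul, Complex.re_add_im]
        rw [h1, hfa, hfr, hfr, hfI, ← h1] }
  have hF : ∀ x, φ' (F x) = S (φ x) := hf
  have hF0 : F x₀ ≠ 0 := by
    intro h0
    apply hx₀
    have h1 := hF x₀
    rw [h0, map_zero] at h1
    exact h1.symm
  have hinj : Function.Injective F := by
    rw [← LinearMap.ker_eq_bot]
    rcases h.simple (LinearMap.ker F) (fun X hX x hx y hy => by
      rw [LinearMap.mem_ker] at hx ⊢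
      apply h'.inj
      rw [hF, ← hy, hSX X hX, ← hF, hx, map_zero, map_zero]) with h1 | h1
    · exact h1
    · exfalso
      apply hF0
      rw [← LinearMap.mem_ker, h1]
      exact Submodule.mem_top
  have hsurj : Function.Surjective F := by
    rw [← LinearMap.range_eq_top]
    rcases h'.simple (LinearMap.range F) (fun X hX u hu y hy => by
      obtain ⟨x, rfl⟩ := hu
      obtain ⟨x', hx'⟩ := h.stab X hX x
      refine ⟨x', h'.inj ?_⟩
      rw [hF, ← hx', hSX X hX, ← hF, hy]) with h1 | h1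
    · exfalso
      apply hF0
      have h2 : F x₀ ∈ LinearMap.range F := ⟨x₀, rfl⟩
      rw [h1, Submodule.mem_bot] at h2
      exact h2
    · exact h1
  exact ⟨LinearEquiv.ofBijective F ⟨hinj, hsurj⟩, S, hSX, fun x => (hF x).symm⟩

/-- the pull back of alternating forms -/
def pb (k : ℕ) (T : VN N ≃ₗ[ℂ] VN N') : Al k N' ≃ₗ[ℂ] Al k N where
  toFun ω := ω.compLinearMap (T : VN N →ₗ[ℂ] VN N')
  map_add' a b := rfl
  map_smul' c a := rfl
  invFun ω := ω.compLinearMap (T.symm : VN N' →ₗ[ℂ] VN N)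
  left_inv ω := by
    refine AlternatingMap.ext fun v => ?_
    change ω (fun i => T (T.symm (v i))) = ω v
    congr 1
    funext i
    rw [LinearEquiv.apply_symm_apply]
  right_inv ω := by
    refine AlternatingMap.ext fun v => ?_
    change ω (fun i => T.symm (T (v i))) = ω v
    congr 1
    funext i
    rw [LinearEquiv.symm_apply_apply]

theorem pb_apply (k : ℕ) (T : VN N ≃ₗ[ℂ] VN N') (ω : Al k N') (v : Fin k → VN N) :
    pb k T ω v = ω (fun i => T (v i)) := rfl

/-- **Transfer of the exterior power.** -/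
theorem ext_transfer {k : ℕ} {Ψ : Al k N →ₗ[ℝ] (Fin g → ℂ)} (hE : IsExt (A := A) φ Ψ)
    (h : SM A z al φ) (h' : SM A z al φ') (T : VN N ≃ₗ[ℂ] VN N') (S : Module.End ℝ (Fin g → ℂ))
    (hS : ∀ X ∈ A.NA, ∀ x, S (A.ext X x) = A.ext X (S x)) (hT : ∀ x, S (φ x) = φ' (T x)) :
    IsExt (A := A) φ' (Ψ.comp ((pb k T : Al k N' →ₗ[ℂ] Al k N).restrictScalars ℝ)) := by
  refine ⟨?_, ?_, ?_⟩
  · intro x y hxy
    exact (pb k T).injective (hE.inj hxy)
  · intro X hX m' hm'
    -- the matrix on the first module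
    let m : MN N := LinearMap.toMatrix' ((T.symm : VN N' →ₗ[ℂ] VN N) ∘ₗ Matrix.toLin' m' ∘ₗ
      (T : VN N →ₗ[ℂ] VN N'))
    have hm0 : ∀ x, m *ᵥ x = T.symm (m' *ᵥ T x) := by
      intro x
      rw [← Matrix.toLin'_apply, Matrix.toLin'_toMatrix']
      rfl
    have hm : ∀ x, A.ext X (φ x) = φ (m *ᵥ x) := by
      intro x
      obtain ⟨y, hy⟩ := h.stab X hX x
      have h1 : φ' (T y) = φ' (m' *ᵥ T x) := by
        rw [← hT, ← hy, hS X hX, hT, hm']
      have h2 : T y = m' *ᵥ T x := h'.inj h1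
      rw [hy, hm0, ← h2, LinearEquiv.symm_apply_apply]
    obtain ⟨c, hc⟩ := hE.lie X hX m hm
    refine ⟨c, fun ω ω' hω => ?_⟩
    change A.ext X (Ψ (pb k T ω)) = Ψ (pb k T ω')
    refine hc _ _ fun v => ?_
    rw [pb_apply, pb_apply, hω]
    congr 1
    refine Finset.sum_congr rfl fun j _ => ?_
    rw [pb_apply]
    congr 1
    funext i
    by_cases hi : i = j
    · subst hi
      rw [Function.update_self, Function.update_self, hm0, LinearEquiv.apply_symm_apply]
    · rw [Function.update_of_ne hi, Function.update_of_ne hi]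
  · intro U hU
    rcases hE.simple (U.comap ((pb k T).symm : Al k N →ₗ[ℂ] Al k N'))
      (fun X hX x hx y hy => by
        refine hU X hX _ hx _ ?_
        change A.ext X (Ψ (pb k T ((pb k T).symm x))) = Ψ (pb k T ((pb k T).symm y))
        rw [LinearEquiv.apply_symm_apply, LinearEquiv.apply_symm_apply, hy]) with h1 | h1
    · left
      rw [eq_bot_iff]
      intro x hx
      have h2 : pb k T x ∈ U.comap ((pb k T).symm : Al k N →ₗ[ℂ] Al k N') := by
        rw [Submodule.mem_comap]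
        change (pb k T).symm (pb k T x) ∈ U
        rw [LinearEquiv.symm_apply_apply]
        exact hx
      rw [h1, Submodule.mem_bot] at h2
      rw [Submodule.mem_bot]
      exact (pb k T).injective (by rw [h2, map_zero])
    · right
      rw [eq_top_iff]
      intro x _
      have h2 : pb k T x ∈ U.comap ((pb k T).symm : Al k N →ₗ[ℂ] Al k N') := by
        rw [h1]
        exact Submodule.mem_top
      rw [Submodule.mem_comap] at h2
      change (pb k T).symm (pb k T x) ∈ U at h2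
      rw [LinearEquiv.symm_apply_apply] at h2
      exact h2

/-- **A ball place with the middle exterior power of some simple module.** -/
theorem big_mid (hp : HP A z al) (hx : ∃ x, x ≠ 0 ∧ Eig A z (-al) x) {k : ℕ} (hk : 2 ≤ k)
    (hN : N = 2 * k) (h : SM A z al φ) {Ψ : Al k N →ₗ[ℝ] (Fin g → ℂ)}
    (hE : IsExt (A := A) φ Ψ) {sg : Fin N' → ℝ} (w : WN A z al N' sg φ') :
    Mixed sg ∧ ∀ 𝔮 : Submodule ℚ (Module.End ℚ A.H1), A.Full 𝔮 → Big sg (rN A (der 𝔮) φ') := by
  have h' := wn_sm hp.toHQ w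
  obtain ⟨T, S, hS, hT⟩ := iso_of hp.toHQ h (by omega) h' w.pos
  have hNN : N' = 2 * k := by
    have h1 := LinearEquiv.finrank_eq T
    rw [Module.finrank_fin_fun, Module.finrank_fin_fun] at h1
    omega
  exact big_ext hp hx w hk hNN (ext_transfer hE h h' T S hS hT)

end Run7.h2.EXT
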