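import Pool.Agent.Run7.h2.EXT.E5
import Pool.Agent.Run7.h2.EXT.Defs
import Pool.Agent.Run7.h2.OB.SG

set_option autoImplicit false
set_option linter.unusedSectionVars false

/-!
# Unitary places and exterior powers: the proof
-/

open Module Matrix Pool.Agent Pool.Agent.Y102 Pool.Agent.W516.DR Pool.Agent.H204R3.GP

noncomputable section

namespace Run7.h2.EXT

open Run7.h2.OB.PU

variable {g : ℕ} (A : AbVar g)

theorem inLie_iff (X : Module.End ℚ A.H1) : InLie A X ↔ X ∈ A.NA := Iff.rfl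

/-- the real linear map of a simple representation -/
def IsSimpleRep.lin {V : Type} [AddCommGroup V] [Module ℂ V] {W : Module ℝ V}
    (hW : ∀ (c : ℝ) (x : V), c • x = (c : ℂ) • x) {Φ : V → Fin g → ℂ} (h : IsSimpleRep A Φ) :
    V →ₗ[ℝ] (Fin g → ℂ) where
  toFun := Φ
  map_add' := h.add
  map_smul' c x := by rw [hW, h.smul, RingHom.id_apply, Complex.coe_smul]

theorem mid_conv {z : Module.End ℚ A.H1} {a : ℝ} (h : HasMiddleExteriorPower A z a) :
    ∃ (k N : ℕ) (φ : N208.BT.VN N →ₗ[ℝ] (Fin g → ℂ)) (Ψ : Al k N →ₗ[ℝ] (Fin g → ℂ)),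
      2 ≤ k ∧ N = 2 * k ∧ SM A z a φ ∧ IsExt (A := A) φ Ψ := by
  obtain ⟨k, N, φ, Ψ, hk, hN, h1, h2, h3, h4⟩ := h
  refine ⟨k, N, IsSimpleRep.lin A (fun c x => (Complex.coe_smul c x).symm) h1,
    IsSimpleRep.lin A (fun c x => ?_) h3, hk, hN, ⟨fun x y => h1.inj x y, h2, h1.stable, h1.simple⟩,
    ⟨fun x y => h3.inj x y, h4, h3.simple⟩⟩
  refine AlternatingMap.ext fun v => ?_
  change c • x v = (c : ℂ) • x v
  rw [Complex.coe_smul]

theorem hp_of {z : Module.End ℚ A.H1} {a : ℝ} (hc : CentralPart A z)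
    (ha : IndefiniteAt A z a) (hb : IsBall A z a) : N208.BT.HP A z a := by
  refine ⟨A.mem_EA.2 hc.endo, fun P hP => hc.central P (A.mem_EA.1 hP), hc.skew,
    fun P hP hcc => hc.generates P (A.mem_EA.1 hP) fun Q hQ => hcc Q (A.mem_EA.2 hQ), ha.1,
    ha.2.1, fun x y hx h2 h3 => ?_⟩
  refine (Submodule.span_mono ?_) (hb x y hx h2 h3)
  rintro w ⟨P, hP, rfl⟩
  exact ⟨P, A.mem_EA.2 hP, rfl⟩

/-- **All full subalgebras contain the long roots at a good ball place.** -/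
theorem GoodBall.big {z : Module.End ℚ A.H1} {b : ℝ} (hc : CentralPart A z)
    (h : GoodBall A z b) (N : ℕ)
    (sg : Fin N → ℝ) (φ : N208.BT.VN N →ₗ[ℝ] (Fin g → ℂ)) (w : N208.BT.WN A z b N sg φ) :
    N208.BT.Mixed sg ∧ ∀ 𝔮 : Submodule ℚ (Module.End ℚ A.H1), A.Full 𝔮 →
      N208.BT.Big sg (N208.BT.rN A (Y102.der 𝔮) φ) := by
  have hi := h.1
  rcases h.2.2 with h1 | h1
  · have hbb : BallPlace A z b := ⟨h.2.1, h1⟩
    have h0 := N521.LCHBG.main g A z {b} (hbb.hb A hc hi) (by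
      intro c hc
      rw [Finset.mem_singleton] at hc
      subst hc
      exact hi.2.2)
    exact h0.big b (Finset.mem_singleton_self b) N sg φ w
  · obtain ⟨k, N0, φ0, Ψ, hk, hN, hs, he⟩ := mid_conv A h1
    exact big_mid (hp_of A hc hi h.2.1) hi.2.2 hk hN hs he w

/-- **All full subalgebras contain the long roots at a unitary place.** -/
theorem Place.big {z : Module.End ℚ A.H1} {a : ℝ} (h : Place A z a) (N : ℕ)
    (sg : Fin N → ℝ) (φ : N208.BT.VN N →ₗ[ℝ] (Fin g → ℂ)) (w : N208.BT.WN A z a N sg φ) :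
    N208.BT.Mixed sg ∧ ∀ 𝔮 : Submodule ℚ (Module.End ℚ A.H1), A.Full 𝔮 →
      N208.BT.Big sg (N208.BT.rN A (Y102.der 𝔮) φ) := by
  have hq := h.part.hq A h.indefinite
  have hmx := N208.BT.mixed_of hq h.indefinite.2.1 h.indefinite.2.2 w
  rcases h.type with h1 | ⟨hf, b, hbb⟩ | ⟨p, hp, hdv, hdg⟩
  · exact GoodBall.big A h.part h1 N sg φ w
  · have hqb := h.part.hq A hbb.1
    obtain ⟨W, hW⟩ := N755.BGWA.main g A z b hqb
    obtain ⟨N0, sg0, φ0, w0⟩ := N455.BGWB.main g A z b hqb W hW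
    have h1 := GoodBall.big A h.part hbb N0 sg0 φ0 w0
    exact ⟨hmx, fun 𝔮 hq𝔮 => Run7.h2.OB.big_of_one hqb w0 h1.1 (fun q hq v hv => by
      rcases hf q with h1 | h1
      · exact h1 v hv
      · exact absurd (LinearMap.ext fun v => h1 v) hq) hq𝔮 (h1.2 𝔮 hq𝔮) hq w⟩
  · refine ⟨hmx, fun 𝔮 hq𝔮 => N208.BT.gpd_main g A z _ p hq
      ⟨hp, fun X hX h0 v hv => ?_, deg_eq A hdg⟩ N sg φ w hmx 𝔮 hq𝔮⟩
    rcases hdv X ((comm_iff A X).2 hX) with h1 | h1
    · exact h1 v hv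
    · exact absurd (LinearMap.ext fun v => h1 v) h0

theorem Places.toHGI {k : ℕ} {z : Fin k → Module.End ℚ A.H1} {a : Fin k → ℝ}
    (h : Places A z a) : Run7.h2.OB.HGI A z a where
  hq := fun i => (h.place i).part.hq A (h.place i).indefinite
  big := fun i => (h.place i).big A
  nl := by
    intro i j hij N N' sg sg' φ φ' w w' 𝔮 hq𝔮
    have hqi := (h.place i).part.hq A (h.place i).indefinite
    have hqj := (h.place j).part.hq A (h.place j).indefinite
    rcases h.apart i j hij with hd | ⟨h1, h2⟩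
    · intro hL
      rcases Run7.h2.OB.dims_of_link hqi hqj w w' hq𝔮 hL with h3 | h3
      · exact hd.1 h3
      · exact hd.2 h3
    · have hs : ∀ c, SeparatesTwo A (z i) (z j) c (a j) →
          Run7.h2.OB.SepTwo A (z i) (z j) c (a j) := by
        intro c hc B₁ k1 k2
        obtain ⟨q, q', X, hX, e, e', hne⟩ := hc B₁
          (fun X hX => (comm_iff A X).2 (k1 X hX)) fun X hX => by
            refine (Algebra.adjoin_mono (Set.union_subset_union_right _ ?_))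
              (k2 X ((comm_iff A X).1 hX))
            rintro Z ⟨hZ, hZ'⟩
            exact ⟨A.mem_EA.1 hZ, (comm_iff A Z).2 hZ'⟩
        exact ⟨q, q', X, hX, e, e', hne⟩
      exact Run7.h2.OB.nl_two hqi hqj (hs _ h1) (hs _ h2) w w' hq𝔮

theorem IsDomainOf.toDomainOf {g s n k : ℕ} {A : AbVar g} {z : Fin k → Module.End ℚ A.H1}
    {a : Fin k → ℝ} {r : Fin s → ℕ} {B : Fin n → Tensors A r} {N : Matrix (Fin n) (Fin n) ℝ}
    (hD : IsDomainOf z a B N) : DomainOf z (fun j => {a j}) B N := fun p hp h =>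
  hD p hp fun j x hx => h j (a j) (Finset.mem_singleton_self _) x hx

/-- **The theorem on the groups.** -/
theorem group_main {g s n k : ℕ} (A : AbVar g) (z : Fin k → Module.End ℚ A.H1) (a : Fin k → ℝ)
    (hA : Places A z a) (r : Fin s → ℕ) (w : Fin s → ℤ)
    (B : Fin n → Tensors A r) (P : Matrix (Fin n) (Fin n) ℂ) (hM : IsMotive w B P)
    (N : Matrix (Fin n) (Fin n) ℝ) (hN : IsComplexStructure B N)
    (hD : IsDomainOf z a B N)
    (G : Subgroup (GL (Fin n) ℂ)) (hG : IsAlgebraicSubgroup G) (T : Matrix (Fin n) (Fin n) ℂ)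
    (hT : ∀ i j, IsAlgebraic ℚ (T i j)) (hP : P ∈ torsor G T) :
    (∀ Z ∈ derived (hodgeLie N), ∀ t : ℂ, ∃ x ∈ G,
      (x : Matrix (Fin n) (Fin n) ℂ) = NormedSpace.exp (t • Z.map fun q => (q : ℂ))) ∧
    (CentreActsTrivially B ∨ HasRigidCentre A → mumfordTate w B ≤ G) :=
  main_hgi A z a (hA.toHGI A) r w B P hM N hN hD.toDomainOf G hG T hT hP

/-- **The theorem on the torsors.** -/
theorem omega_main {g s n k : ℕ} (A : AbVar g) (z : Fin k → Module.End ℚ A.H1) (a : Fin k → ℝ)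
    (hA : Places A z a) (r : Fin s → ℕ) (w : Fin s → ℤ)
    (B : Fin n → Tensors A r) (P : Matrix (Fin n) (Fin n) ℂ) (hM : IsMotive w B P)
    (N : Matrix (Fin n) (Fin n) ℝ) (hN : IsComplexStructure B N)
    (hD : DomainOf z (fun j => {a j}) B N) :
    (∀ Z ∈ derived (hodgeLie N), ∀ t : ℂ,
      NormedSpace.exp (t • Z.map fun q => (q : ℂ)) * P ∈ omegaDRB P) ∧
    (CentreActsTrivially B ∨ RigidCentre A → omegaAnd w B P ⊆ omegaDRB P) := by
  have key := main_hgi A z a (hA.toHGI A) r w B P hM N hN hD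
  refine ⟨fun Z hZ t G T hG hT hP => ?_, ?_⟩
  · obtain ⟨x, hx, e⟩ := (key G hG T hT hP).1 Z hZ t
    obtain ⟨y, hy, e'⟩ := hP
    refine ⟨x * y, G.mul_mem hx hy, ?_⟩
    rw [Matrix.GeneralLinearGroup.coe_mul, e, e', Matrix.mul_assoc]
  · rintro hc _ ⟨x, hx, rfl⟩ G T hG hT hP
    have h1 := (key G hG T hT hP).2 hc hx
    obtain ⟨y, hy, e'⟩ := hP
    refine ⟨x * y, G.mul_mem h1 hy, ?_⟩
    rw [Matrix.GeneralLinearGroup.coe_mul, e', Matrix.mul_assoc]

end Run7.h2.EXT
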