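import Pool.Agent.Run7.h2.OB.SODefs

set_option autoImplicit false

/-!
# 1-motives over abelian varieties with unitary places and exterior powers: the definitions

See `Pool/Agent/Results/MP_ae0f86_nt/OneMotivesOddBalls.lean`.
-/

open Module Matrix Pool.Agent.Y102 Pool.Agent.N208.OneM Run7.h2.OB.SO

noncomputable section

namespace Run7.h2.EXT.O

variable {g k : ℕ} (A : AbVar g)

/-- **A simple representation in the homology.** The injective real linear map `Φ` identifies the complex
vector space `V` with a real subspace of `H_1(A, ℝ) = ℂ ^ g` which is stable under the Lie algebra `𝔤`, and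
`V` is simple as a complex representation of `𝔤`: it has no stable complex subspaces besides `0` and `V`. -/
structure IsSimpleRep {V : Type} [AddCommGroup V] [Module ℂ V] (Φ : V → Fin g → ℂ) : Prop where
  add : ∀ x y, Φ (x + y) = Φ x + Φ y
  smul : ∀ (c : ℝ) x, Φ ((c : ℂ) • x) = (c : ℂ) • Φ x
  inj : ∀ x y, Φ x = Φ y → x = y
  stable : ∀ X, InLie A X → ∀ x, ∃ y, A.ext X (Φ x) = Φ y
  simple : ∀ U : Submodule ℂ V,
    (∀ X, InLie A X → ∀ x ∈ U, ∀ y, A.ext X (Φ x) = Φ y → y ∈ U) → U = ⊥ ∨ U = ⊤

/-- The endomorphism `X` acts on the representation `ℂ ^ N` by the matrix `m`. -/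
def ActsBy {N : ℕ} (φ : (Fin N → ℂ) → Fin g → ℂ) (X : EndQ A)
    (m : Matrix (Fin N) (Fin N) ℂ) : Prop := ∀ x, A.ext X (φ x) = φ (m *ᵥ x)

/-- The space of the alternating forms of degree `k` on `ℂ ^ N`: the exterior power of degree `k` of the
dual space. (If `N = 2 k` it is isomorphic to the exterior power of degree `k` of `ℂ ^ N`, up to a twist
with the determinant.) -/
abbrev Alt (k N : ℕ) : Type := (Fin N → ℂ) [⋀^Fin k]→ₗ[ℂ] ℂ

/-- The contragredient action of a matrix `m` on alternating forms, twisted by a character with the value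
`c`: the form `ω'` is `c ω` minus the sum of the forms `ω(v₁, ..., m v_j, ..., v_k)`. -/
def ActsTo {k N : ℕ} (m : Matrix (Fin N) (Fin N) ℂ) (c : ℂ) (ω ω' : Alt k N) : Prop :=
  ∀ v, ω' v = c * ω v - ∑ j, ω (Function.update v j (m *ᵥ v j))

/-- **The exterior power of a representation.** The elements `X` of `𝔤` act on `Ψ` like on the alternating
forms of degree `k` on the representation `φ`, up to a twist by a character of `𝔤` (with the value `c` at
the element `X`). -/
def IsExteriorPower {k N : ℕ} (φ : (Fin N → ℂ) → Fin g → ℂ) (Ψ : Alt k N → Fin g → ℂ) : Prop :=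
  ∀ X, InLie A X → ∀ m, ActsBy A φ X m → ∃ c : ℂ, ∀ ω ω', ActsTo m c ω ω' → A.ext X (Ψ ω) = Ψ ω'

/-- **The middle exterior power occurs**: for some simple representation `ℂ ^ N` in `H_1(A, ℝ)`, on which
`z` acts as `i a`, of the dimension `N = 2 k`, `k ≥ 2`, the exterior power of degree `k`, twisted by a
character, occurs in `H_1(A, ℝ)` as a simple representation. -/
def HasMiddleExteriorPower (z : EndQ A) (a : ℝ) : Prop :=
  ∃ (k N : ℕ) (φ : (Fin N → ℂ) → Fin g → ℂ) (Ψ : Alt k N → Fin g → ℂ), 2 ≤ k ∧ N = 2 * k ∧
    IsSimpleRep A φ ∧ (∀ x, A.ext z (φ x) = φ (((a : ℂ) * Complex.I) • x)) ∧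
      IsSimpleRep A Ψ ∧ IsExteriorPower A φ Ψ

/-- **A good ball place**: indefinite, the signature is `(1, n)`, and `i a` and `- i a` are separated, or
the middle exterior power occurs in the homology. -/
def GoodBall (z : EndQ A) (a : ℝ) : Prop :=
  IndefiniteAt A z a ∧ SimpleAt A z a ∧ (Separates A z a (-a) ∨ HasMiddleExteriorPower A z a)

/-- The type of the place: a good ball place; or `ℚ[z]` is a field and some place of `z` is a good ball
place; or the commutant of the endomorphisms is a division algebra of a prime degree. -/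
def GoodType (z : EndQ A) (a : ℝ) : Prop :=
  GoodBall A z a ∨ (IsFieldPart A z ∧ ∃ b, GoodBall A z b) ∨
    ∃ p : ℕ, p.Prime ∧ IsDivision A z ∧ HasDegree A z p

/-- **A unitary place**: `z` is central and skew-symmetric and generates the centre on its image, the
signature at `a` is indefinite, with one of the types above. -/
structure Place (z : EndQ A) (a : ℝ) : Prop where
  part : CentralPart A z
  indefinite : IndefiniteAt A z a
  type : GoodType A z a

/-- **Several unitary places**, of one or of several central endomorphisms. Different places have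
different signatures, or they are separated. -/
structure Places (z : Fin k → EndQ A) (a : Fin k → ℝ) : Prop where
  place : ∀ i, Place A (z i) (a i)
  apart : ∀ i j, i ≠ j → DifferentSignatures A (z i) (z j) (a i) (a j) ∨
    (SeparatesTwo A (z i) (z j) (a i) (a j) ∧ SeparatesTwo A (z i) (z j) (-(a i)) (a j))

end Run7.h2.EXT.O
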