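import Pool.Agent.Run7.h2.OB.SO
import Pool.Agent.Run7.h2.EXT.ODefs
import Pool.Agent.Run7.h2.EXT.E6

set_option autoImplicit false

/-!
# 1-motives over abelian varieties with unitary places and exterior powers: the proof
-/

open Module Matrix Pool.Agent Pool.Agent.Y102 Pool.Agent.R917.OM Pool.Agent.R917.BX
  Pool.Agent.W516.DR Pool.Agent.H204R3.GP Pool.Agent.N208.UR Pool.Agent.N208.OneM

noncomputable section

namespace Run7.h2.EXT.O

open Run7.h2.OB.SO

variable {g n s : ℕ} {A : AbVarG g} {g' : ℕ} {C : AbVar g'}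

theorem rep_conv {V : Type} [AddCommGroup V] [Module ℂ V] {Φ : V → Fin g' → ℂ}
    (h : IsSimpleRep C Φ) : EXT.IsSimpleRep C Φ :=
  ⟨h.add, h.smul, h.inj, h.stable, h.simple⟩

theorem mid_conv {z : EndQ C} {a : ℝ} (h : HasMiddleExteriorPower C z a) :
    EXT.HasMiddleExteriorPower C z a := by
  obtain ⟨k, N, φ, Ψ, hk, hN, h1, h2, h3, h4⟩ := h
  exact ⟨k, N, φ, Ψ, hk, hN, rep_conv h1, h2, rep_conv h3, h4⟩

theorem ball_conv {z : EndQ C} {a : ℝ} (h : GoodBall C z a) : EXT.GoodBall C z a := by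
  refine ⟨h.1, h.2.1, ?_⟩
  rcases h.2.2 with h1 | h1
  · exact Or.inl (sep_conv h1)
  · exact Or.inr (mid_conv h1)

theorem places_conv {k : ℕ} {z : Fin k → EndQ C} {a : Fin k → ℝ} (h : Places C z a) :
    EXT.Places C z a where
  place := fun i => by
    have h1 := h.place i
    refine ⟨central_conv h1.part, h1.indefinite, ?_⟩
    rcases h1.type with h2 | ⟨h2, b, h3⟩ | h2
    · exact Or.inl (ball_conv h2)
    · exact Or.inr (Or.inl ⟨h2, b, ball_conv h3⟩)
    · exact Or.inr (Or.inr h2)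
  apart := fun i j hij => by
    rcases h.apart i j hij with h1 | ⟨h1, h2⟩
    · exact Or.inl h1
    · exact Or.inr ⟨sep2_conv h1, sep2_conv h2⟩

theorem main (g n s : ℕ) (A : AbVarG g) (u : Fin n → Fin g → ℂ) (v : Fin s → Fin g → ℂ)
    (ℓ : Fin n → Fin s → ℂ) (hM : IsOneMotive A u v ℓ)
    (G : Subgroup (GL (Betti g n s) ℂ)) (hG : IsAlgebraicSubgroup G)
    (hP : ContainsPeriods A u v ℓ G) (g' : ℕ) (C : AbVar g') (f : A.toAbVar.H1 →ₗ[ℚ] C.H1)
    (p : C.H1 →ₗ[ℚ] A.toAbVar.H1) (k : ℕ) (z : Fin k → EndQ C) (a : Fin k → ℝ)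
    (hF : IsFactor A.toAbVar C f p) (hU : Places C z a)
    (hD : DomainOfPlaces A.toAbVar C f p z a) :
    (∀ Z ∈ derived (mtLie A u v ℓ), ∀ t : ℂ, IsIn G (NormedSpace.exp (t • cplx Z))) ∧
      (RigidCentre C → mumfordTate A u v ℓ ≤ G) := by
  have hH := (places_conv hU).toHGI C
  have hr := Run7.h2.OB.rpartI hH
  exact ⟨fun Z hZ t => main_two hM hG hP hF hr (fun N hN => hdom hF hH hD N hN) hZ t,
    fun hR => main_three hM hG hP hF hr (fun N hN => hdom hF hH hD N hN) hR⟩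

end Run7.h2.EXT.O
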